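import Mathlib
import Pool.Agent.AA2.Rs
import Pool.Agent.AA2.Small
import Pool.Agent.AA2.Main

/-!
LQ = MP_f992e4_an: linear form of the Aaronson-Ambainis bound with a quasi-polynomial factor,
definitions. Overview: /team-store/lq_blueprint.md.
-/

set_option linter.dupNamespace false

namespace Pool.Agent.LQ

open Finset Pool.Agent.Helper11.Cube Pool.Agent.Helper11.AA Pool.Agent.SUB Pool.Agent.QAA
  Pool.Agent.AA2

variable {n : ℕ}

/-- Functions of degree at most `d` with values in `[-1,1]` and derivatives bounded by `ε`. -/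
def Bde (d : ℕ) (ε : ℝ) (f : Cube n → ℝ) : Prop :=
  Bdd d f ∧ ∀ w x, |discreteDeriv w f x| ≤ ε

/-- Total influence. -/
noncomputable def TI (f : Cube n → ℝ) : ℝ := ∑ w, Iw f w

/-- Second moment of the Fourier level. -/
noncomputable def TN (f : Cube n → ℝ) : ℝ :=
  ∑ S : Finset (Fin n), (S.card : ℝ) ^ 2 * coef f S ^ 2

/-- Sum of the cubes of the influences. -/
noncomputable def TF (f : Cube n → ℝ) : ℝ := ∑ w, Iw f w ^ 3

/-- `A = log ((2d)^8 ε / I)`. -/
noncomputable def LA (d : ℕ) (ε : ℝ) (f : Cube n → ℝ) : ℝ :=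
  Real.log ((2 * (d : ℝ)) ^ 8 * ε / TI f)

/-- `B = 1 + log (N / I)`. -/
noncomputable def LB (f : Cube n → ℝ) : ℝ := 1 + Real.log (TN f / TI f)

/-- The potential `Z = (1/2) log (I^5 / F)`. -/
noncomputable def LZ (f : Cube n → ℝ) : ℝ := (5 * Real.log (TI f) - Real.log (TF f)) / 2

/-- Averaging over the coordinate `a`. -/
noncomputable def av (a : Fin n) (f : Cube n → ℝ) : Cube n → ℝ :=
  fun x => (f (Function.update x a 1) + f (Function.update x a (-1))) / 2

/-- `∑_{S ∋ a} (2|S| - 1) f^(S)^2`. -/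
noncomputable def nA (f : Cube n → ℝ) (a : Fin n) : ℝ :=
  ∑ S ∈ univ.filter (fun S : Finset (Fin n) => a ∈ S), (2 * (S.card : ℝ) - 1) * coef f S ^ 2

/-- `∑_w P_w^3 b_aw^2`. -/
noncomputable def BA (f : Cube n → ℝ) (a : Fin n) : ℝ := ∑ w, Iw f w ^ 3 * bw f w a ^ 2

/-- The relevant coordinates. -/
noncomputable def Rel (f : Cube n → ℝ) : Finset (Fin n) := univ.filter (fun w => Iw f w ≠ 0)

/-- Density of the planted signs. -/
noncomputable def nu (f : Cube n → ℝ) (C : Finset (Fin n)) (w : Fin n) (y : Cube n) : ℝ :=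
  (∏ a ∈ C, (1 + ((y a : ℤ) : ℝ) * (bw f w a / 2))) / 2 ^ n

end Pool.Agent.LQ
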