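import Mathlib
import Pool.Agent.LQ.Defs

/-! LQ, module Base: elementary facts. -/

set_option linter.dupNamespace false

namespace Pool.Agent.LQ

open Finset Pool.Agent.Helper11.Cube Pool.Agent.Helper11.AA Pool.Agent.SUB Pool.Agent.QAA
  Pool.Agent.AA2

variable {n d : ℕ} {ε : ℝ} {f : Cube n → ℝ}

lemma TI_nonneg (f : Cube n → ℝ) : 0 ≤ TI f := Finset.sum_nonneg (fun w _ => Iw_nonneg f w)

lemma TF_nonneg (f : Cube n → ℝ) : 0 ≤ TF f :=
  Finset.sum_nonneg (fun w _ => pow_nonneg (Iw_nonneg f w) 3)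

lemma Iw_coef (f : Cube n → ℝ) (w : Fin n) :
    Iw f w = ∑ S ∈ univ.filter (fun S : Finset (Fin n) => w ∈ S), coef f S ^ 2 :=
  ex_deriv_sq f w

lemma TI_eq (f : Cube n → ℝ) : TI f = ∑ S : Finset (Fin n), (S.card : ℝ) * coef f S ^ 2 := by
  unfold TI
  simp_rw [Iw_coef, Finset.sum_filter]
  rw [Finset.sum_comm]
  refine Finset.sum_congr rfl fun S _ => ?_
  rw [← Finset.sum_filter, Finset.sum_const, nsmul_eq_mul]
  have h1 : (univ.filter (fun w => w ∈ S)).card = S.card := by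
    congr 1
    ext w
    simp
  rw [h1]

lemma TI_le_TN (f : Cube n → ℝ) : TI f ≤ TN f := by
  rw [TI_eq]
  unfold TN
  refine Finset.sum_le_sum fun S _ => mul_le_mul_of_nonneg_right ?_ (sq_nonneg _)
  have h : S.card ≤ S.card ^ 2 := Nat.le_self_pow (by norm_num) S.card
  exact_mod_cast h

lemma TN_le (hf : Bdd d f) : TN f ≤ d * TI f := by
  rw [TI_eq, Finset.mul_sum]
  unfold TN
  refine Finset.sum_le_sum fun S _ => ?_
  by_cases hS : S.card ≤ d
  · have h1 : (S.card : ℝ) ≤ d := by exact_mod_cast hS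
    have h2 : (0 : ℝ) ≤ S.card := Nat.cast_nonneg _
    have h3 : (S.card : ℝ) ^ 2 ≤ d * S.card := by nlinarith
    calc (S.card : ℝ) ^ 2 * coef f S ^ 2 ≤ (d * S.card) * coef f S ^ 2 :=
          mul_le_mul_of_nonneg_right h3 (sq_nonneg _)
      _ = d * (S.card * coef f S ^ 2) := by ring
  · have h1 : coef f S = 0 := hf.1 S (by omega)
    rw [h1]
    simp

lemma TI_le' (hf : Bde d ε f) (hε : 0 ≤ ε) : TI f ≤ 2 * (d : ℝ) ^ 2 * ε := by
  have h2 : TI f = ex (fun x => ∑ w, gs f w x) := by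
    unfold TI Iw
    rw [← ex_sum]
  have h3 : ex (fun x => ∑ w, gs f w x) ≤ ex (fun _ : Cube n => 2 * (d : ℝ) ^ 2 * ε) := by
    refine ex_mono (fun x => ?_)
    calc ∑ w, gs f w x ≤ ∑ w, |discreteDeriv w f x| * ε := by
          refine Finset.sum_le_sum fun w _ => ?_
          unfold gs
          rw [← sq_abs, sq]
          exact mul_le_mul_of_nonneg_left (hf.2 w x) (abs_nonneg _)
      _ = (∑ w, |discreteDeriv w f x|) * ε := by rw [Finset.sum_mul]
      _ ≤ 2 * (d : ℝ) ^ 2 * ε := mul_le_mul_of_nonneg_right (sum_abs_deriv hf.1 x) hε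
  rw [ex_const] at h3
  rw [h2]
  exact h3

lemma eps_nonneg (hf : Bde d ε f) (h : 0 < TI f) : 0 ≤ ε := by
  unfold TI at h
  obtain ⟨w, -, -⟩ := Finset.exists_ne_zero_of_sum_ne_zero h.ne'
  exact (abs_nonneg _).trans (hf.2 w (fun _ => 1))

/-- (For `n = 0` and `ε < 0` this would be false without `h`.) -/
lemma TI_le (hf : Bde d ε f) (h : 0 < TI f) : TI f ≤ 2 * (d : ℝ) ^ 2 * ε :=
  TI_le' hf (eps_nonneg hf h)

lemma TF_pos (h : 0 < TI f) : 0 < TF f := by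
  unfold TI at h
  obtain ⟨w, -, hw⟩ := Finset.exists_ne_zero_of_sum_ne_zero h.ne'
  have h1 : 0 < Iw f w := lt_of_le_of_ne (Iw_nonneg f w) (Ne.symm hw)
  exact lt_of_lt_of_le (pow_pos h1 3)
    (Finset.single_le_sum (fun v _ => pow_nonneg (Iw_nonneg f v) 3) (Finset.mem_univ w))

lemma eps_pos (hf : Bde d ε f) (h : 0 < TI f) : 0 < ε := by
  have h1 := TI_le hf h
  by_contra hc
  have h2 : 2 * (d : ℝ) ^ 2 * ε ≤ 0 :=
    mul_nonpos_of_nonneg_of_nonpos (by positivity) (not_lt.1 hc)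
  linarith

lemma one_le_LB (h : 0 < TI f) : 1 ≤ LB f := by
  unfold LB
  have h1 : 1 ≤ TN f / TI f := (one_le_div h).2 (TI_le_TN f)
  have := Real.log_nonneg h1
  linarith

lemma LB_le (hd : 1 ≤ d) (hf : Bdd d f) (h : 0 < TI f) : LB f ≤ 1 + Real.log d := by
  unfold LB
  have h0 : 0 < TN f := lt_of_lt_of_le h (TI_le_TN f)
  have h1 : TN f / TI f ≤ d := (div_le_iff₀ h).2 (TN_le hf)
  have := Real.log_le_log (div_pos h0 h) h1
  linarith

/-- `A ≥ 7 log 2 + 6 log d`. -/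
lemma LA_ge (hd : 1 ≤ d) (hf : Bde d ε f) (h : 0 < TI f) :
    4.85 + 6 * Real.log d ≤ LA d ε f := by
  unfold LA
  have hε := eps_pos hf h
  have hd0 : (0 : ℝ) < d := by exact_mod_cast hd
  have h1 := TI_le hf h
  have h2 : (2 : ℝ) ^ 7 * (d : ℝ) ^ 6 ≤ (2 * (d : ℝ)) ^ 8 * ε / TI f := by
    rw [le_div_iff₀ h]
    calc (2 : ℝ) ^ 7 * (d : ℝ) ^ 6 * TI f
        ≤ (2 : ℝ) ^ 7 * (d : ℝ) ^ 6 * (2 * (d : ℝ) ^ 2 * ε) :=
          mul_le_mul_of_nonneg_left h1 (by positivity)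
      _ = (2 * (d : ℝ)) ^ 8 * ε := by ring
  have h3 := Real.log_le_log (by positivity) h2
  rw [Real.log_mul (by positivity) (by positivity), Real.log_pow, Real.log_pow] at h3
  have h4 := Real.log_two_gt_d9
  push_cast at h3
  linarith

lemma four_LB_le (hd : 1 ≤ d) (hf : Bde d ε f) (h : 0 < TI f) : 4 * LB f ≤ LA d ε f := by
  have h1 := LB_le hd hf.1 h
  have h2 := LA_ge hd hf h
  have h3 : 0 ≤ Real.log (d : ℝ) := Real.log_nonneg (by exact_mod_cast hd)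
  linarith

lemma variance_le_TI (f : Cube n → ℝ) : variance f ≤ TI f := poincare f

end Pool.Agent.LQ
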