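import Mathlib
import Pool.Agent.LQ.Base

/-! LQ, module RestrN: the second moment `TN` of the restrictions. -/

set_option linter.dupNamespace false

namespace Pool.Agent.LQ

open Finset Pool.Agent.Helper11.Cube Pool.Agent.Helper11.AA Pool.Agent.SUB Pool.Agent.QAA
  Pool.Agent.AA2

variable {n d : ℕ} {ε : ℝ} {f : Cube n → ℝ}

private lemma sum_split (a : Fin n) (F : Finset (Fin n) → ℝ) :
    ∑ S : Finset (Fin n), F S =
      ∑ T ∈ (univ.erase a).powerset, (F T + F (insert a T)) := by
  have h1 : (univ : Finset (Finset (Fin n))) = (insert a (univ.erase a)).powerset := by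
    rw [Finset.insert_erase (Finset.mem_univ a), Finset.powerset_univ]
  rw [h1, Finset.sum_powerset_insert (Finset.notMem_erase a univ), Finset.sum_add_distrib]

private lemma notMem_of_mem {a : Fin n} {T : Finset (Fin n)}
    (hT : T ∈ (univ.erase a).powerset) : a ∉ T := by
  intro h
  exact Finset.notMem_erase a univ (Finset.mem_powerset.1 hT h)

/-- Coefficients of a restriction. -/
lemma coef_rs (f : Cube n → ℝ) (a : Fin n) (u : ℤˣ) (T : Finset (Fin n)) :
    coef (rs a u f) T = if a ∈ T then 0 else coef f T + ((u : ℤ) : ℝ) * coef f (insert a T) := by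
  have h : rs a u f = fun x => ∑ T : Finset (Fin n),
      (if a ∈ T then 0 else coef f T + ((u : ℤ) : ℝ) * coef f (insert a T)) * chi T x := by
    funext x
    unfold rs
    rw [inversion f (Function.update x a u), sum_split a, sum_split a]
    refine Finset.sum_congr rfl fun T hT => ?_
    have haT := notMem_of_mem hT
    have h1 : chi T (Function.update x a u) = chi T x := by
      unfold chi
      refine Finset.prod_congr rfl fun i hi => ?_
      have hia : i ≠ a := by
        rintro rfl
        exact haT hi
      rw [Function.update_of_ne hia]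
    have h2 : chi (insert a T) (Function.update x a u) = ((u : ℤ) : ℝ) * chi T x := by
      rw [← h1]
      unfold chi
      rw [Finset.prod_insert haT, Function.update_self]
    rw [h1, h2, if_neg haT, if_pos (Finset.mem_insert_self a T)]
    ring
  rw [h]
  exact coef_poly _ T

lemma TN_rs (f : Cube n → ℝ) (a : Fin n) :
    TN (rs a 1 f) + TN (rs a (-1) f) = 2 * (TN f - nA f a) := by
  unfold TN nA
  rw [Finset.sum_filter, sum_split a, sum_split a, sum_split a, sum_split a,
    ← Finset.sum_add_distrib, ← Finset.sum_sub_distrib, Finset.mul_sum]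
  refine Finset.sum_congr rfl fun T hT => ?_
  have haT := notMem_of_mem hT
  rw [coef_rs, coef_rs, coef_rs, coef_rs, if_neg haT, if_neg haT, if_neg haT,
    if_pos (Finset.mem_insert_self a T), if_pos (Finset.mem_insert_self a T),
    if_pos (Finset.mem_insert_self a T), Finset.card_insert_of_notMem haT]
  push_cast
  ring

lemma sum_nA (f : Cube n → ℝ) : ∑ a, nA f a = 2 * TN f - TI f := by
  rw [TI_eq]
  unfold TN nA
  simp_rw [Finset.sum_filter]
  rw [Finset.sum_comm, Finset.mul_sum, ← Finset.sum_sub_distrib]
  refine Finset.sum_congr rfl fun S _ => ?_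
  rw [← Finset.sum_filter]
  have h1 : univ.filter (fun a => a ∈ S) = S := by ext a; simp
  rw [h1, Finset.sum_const, nsmul_eq_mul]
  ring

end Pool.Agent.LQ
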