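import Mathlib
import Pool.Agent.LQ.Base
import Pool.Agent.LQ.RestrN

/-! LQ, module Av: the functionals of the average `av a f`. -/

set_option linter.dupNamespace false

namespace Pool.Agent.LQ

open Finset Pool.Agent.Helper11.Cube Pool.Agent.Helper11.AA Pool.Agent.SUB Pool.Agent.QAA
  Pool.Agent.AA2

variable {n d : ℕ} {ε : ℝ} {f : Cube n → ℝ}

lemma coef_av (f : Cube n → ℝ) (a : Fin n) (T : Finset (Fin n)) :
    coef (av a f) T = if a ∈ T then 0 else coef f T := by
  have h1 := coef_rs f a 1 T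
  have h2 := coef_rs f a (-1) T
  have h3 : coef (av a f) T = (coef (rs a 1 f) T + coef (rs a (-1) f) T) / 2 := by
    have e : (fun x => av a f x * chi T x) =
        fun x => (1 / 2) * (rs a 1 f x * chi T x + rs a (-1) f x * chi T x) := by
      funext x
      unfold av rs
      ring
    unfold coef
    rw [e, ex_mul_left', ex_add']
    ring
  rw [h3, h1, h2]
  split_ifs
  · norm_num
  · push_cast
    ring

private lemma deriv_av_self (f : Cube n → ℝ) (a : Fin n) (x : Cube n) :
    discreteDeriv a (av a f) x = 0 := by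
  unfold discreteDeriv av
  simp only [Function.update_idem]
  ring

private lemma deriv_av_ne (f : Cube n → ℝ) {a w : Fin n} (h : w ≠ a) (x : Cube n) :
    discreteDeriv w (av a f) x = (discreteDeriv w f (Function.update x a 1) +
      discreteDeriv w f (Function.update x a (-1))) / 2 := by
  unfold discreteDeriv av
  rw [Function.update_comm h, Function.update_comm h, Function.update_comm h,
    Function.update_comm h]
  ring

lemma Bde_av (hf : Bde d ε f) (a : Fin n) : Bde d ε (av a f) := by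
  refine ⟨⟨fun S hS => ?_, fun x => ?_⟩, fun w x => ?_⟩
  · rw [coef_av]
    split_ifs
    · rfl
    · exact hf.1.1 S hS
  · have h1 := hf.1.2 (Function.update x a 1)
    have h2 := hf.1.2 (Function.update x a (-1))
    rw [abs_le] at h1 h2 ⊢
    unfold av
    constructor <;> linarith [h1.1, h1.2, h2.1, h2.2]
  · by_cases h : w = a
    · rw [h, deriv_av_self, abs_zero]
      exact (abs_nonneg _).trans (hf.2 a x)
    · have h1 := hf.2 w (Function.update x a 1)
      have h2 := hf.2 w (Function.update x a (-1))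
      rw [deriv_av_ne f h]
      rw [abs_le] at h1 h2 ⊢
      constructor <;> linarith [h1.1, h1.2, h2.1, h2.2]

private lemma sq_av_le (f : Cube n → ℝ) (a : Fin n) (T : Finset (Fin n)) :
    coef (av a f) T ^ 2 ≤ coef f T ^ 2 := by
  rw [coef_av]
  split_ifs
  · rw [zero_pow two_ne_zero]
    exact sq_nonneg _
  · exact le_rfl

lemma TI_av_le (f : Cube n → ℝ) (a : Fin n) : TI (av a f) ≤ TI f := by
  rw [TI_eq, TI_eq]
  exact Finset.sum_le_sum fun S _ => mul_le_mul_of_nonneg_left (sq_av_le f a S) (by positivity)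

lemma TI_av_ge (hf : Bdd d f) (a : Fin n) : TI f - d * Iw f a ≤ TI (av a f) := by
  rw [TI_eq, TI_eq, Iw_coef, Finset.mul_sum, Finset.sum_filter, sub_le_iff_le_add,
    ← Finset.sum_add_distrib]
  refine Finset.sum_le_sum fun S _ => ?_
  rw [coef_av]
  split_ifs with h
  · rcases Nat.lt_or_ge d S.card with h1 | h1
    · rw [hf.1 S h1]
      simp
    · have h2 : (S.card : ℝ) ≤ d := by exact_mod_cast h1
      have h3 := mul_le_mul_of_nonneg_right h2 (sq_nonneg (coef f S))
      simpa using h3
  · simp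

lemma TN_av_le (f : Cube n → ℝ) (a : Fin n) : TN (av a f) ≤ TN f :=
  Finset.sum_le_sum fun S _ => mul_le_mul_of_nonneg_left (sq_av_le f a S) (by positivity)

private lemma Iw_av_le (f : Cube n → ℝ) (a w : Fin n) : Iw (av a f) w ≤ Iw f w := by
  rw [Iw_coef, Iw_coef]
  exact Finset.sum_le_sum fun S _ => sq_av_le f a S

private lemma Iw_av_self (f : Cube n → ℝ) (a : Fin n) : Iw (av a f) a = 0 := by
  rw [Iw_coef]
  refine Finset.sum_eq_zero fun S hS => ?_
  rw [coef_av, if_pos (Finset.mem_filter.1 hS).2, zero_pow two_ne_zero]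

lemma TF_av_le (f : Cube n → ℝ) (a : Fin n) : TF (av a f) ≤ TF f - Iw f a ^ 3 := by
  unfold TF
  rw [← Finset.add_sum_erase univ (fun w => Iw (av a f) w ^ 3) (Finset.mem_univ a),
    ← Finset.add_sum_erase univ (fun w => Iw f w ^ 3) (Finset.mem_univ a)]
  simp only [Iw_av_self]
  have h1 : ∑ w ∈ univ.erase a, Iw (av a f) w ^ 3 ≤ ∑ w ∈ univ.erase a, Iw f w ^ 3 :=
    Finset.sum_le_sum fun w _ => pow_le_pow_left₀ (Iw_nonneg _ w) (Iw_av_le f a w) 3
  linarith

lemma Rel_av (f : Cube n → ℝ) {a : Fin n} (ha : Iw f a ≠ 0) :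
    (Rel (av a f)).card < (Rel f).card := by
  refine Finset.card_lt_card ((Finset.ssubset_iff_of_subset ?_).2
    ⟨a, Finset.mem_filter.2 ⟨Finset.mem_univ a, ha⟩, fun h =>
      (Finset.mem_filter.1 h).2 (Iw_av_self f a)⟩)
  intro w hw
  have h1 := (Finset.mem_filter.1 hw).2
  refine Finset.mem_filter.2 ⟨Finset.mem_univ w, fun h2 => h1 ?_⟩
  exact le_antisymm (h2 ▸ Iw_av_le f a w) (Iw_nonneg _ w)

end Pool.Agent.LQ
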