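import Mathlib
import Pool.Agent.LQ.Base
import Pool.Agent.AAL.PlantSum

/-! LQ, module Bias: the biases of the coordinates under `(D_w f)^2`. -/

set_option linter.dupNamespace false

namespace Pool.Agent.LQ

open Finset Pool.Agent.Helper11.Cube Pool.Agent.Helper11.AA Pool.Agent.SUB Pool.Agent.QAA
  Pool.Agent.AA2

variable {n d : ℕ} {ε : ℝ} {f : Cube n → ℝ}

/-- `∑_w ∑_a |b_aw| P_w ≤ 8 d^4 ε` (compare `AA2.sum_bw_abs`). -/
lemma sum_bw_abs_eps (hf : Bde d ε f) (hε : 0 ≤ ε) :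
    ∑ w, ∑ a, |bw f w a| * Iw f w ≤ 8 * (d : ℝ) ^ 4 * ε := by
  refine le_trans (le_of_eq ?_) (Pool.Agent.AAL.sum_bw_abs hf.1 hε hf.2)
  refine Finset.sum_congr rfl fun w _ => ?_
  rw [Finset.mul_sum]
  exact Finset.sum_congr rfl fun a _ => mul_comm _ _

/-- If `P_w = 0`, all biases are `0`. -/
lemma bw_eq_zero {w : Fin n} (h : Iw f w = 0) (a : Fin n) : bw f w a = 0 := by
  unfold bw bias
  unfold Iw at h
  rw [h, div_zero]

/-- `∑_a b_aw^2 ≤ 4 d` (for `P_w = 0` all biases are `0`). -/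
lemma sum_bw_sq_le (hf : Bdd d f) (w : Fin n) : ∑ a, bw f w a ^ 2 ≤ 4 * d := by
  rcases (Iw_nonneg f w).eq_or_lt with h | h
  · have h0 : ∀ a, bw f w a ^ 2 = 0 := fun a => by rw [bw_eq_zero h.symm a]; ring
    simp only [h0, Finset.sum_const_zero]
    positivity
  · have h1 : ∑ a, bw f w a ^ 2 * Iw f w ≤ 4 * (d : ℝ) * Iw f w := by
      calc ∑ a, bw f w a ^ 2 * Iw f w ≤ ∑ a, 4 * I2 f w a := by
            refine Finset.sum_le_sum fun a _ => ?_
            rw [I2_comm]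
            exact bw_sq_le f w a
        _ = 4 * ∑ a, I2 f w a := (Finset.mul_sum _ _ _).symm
        _ ≤ 4 * ((d : ℝ) * Iw f w) := by
            have := sum_I2_le hf univ w
            linarith
        _ = 4 * (d : ℝ) * Iw f w := by ring
    rw [← Finset.sum_mul] at h1
    exact le_of_mul_le_mul_right h1 h

lemma card_Cb (hf : Bdd d f) {β : ℝ} (hβ : 0 < β) (w : Fin n) :
    ((Cb β f w).card : ℝ) ≤ 4 * d / β ^ 2 := by
  rw [le_div_iff₀ (by positivity)]
  calc ((Cb β f w).card : ℝ) * β ^ 2 = ∑ _a ∈ Cb β f w, β ^ 2 := by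
        rw [Finset.sum_const, nsmul_eq_mul]
    _ ≤ ∑ a ∈ Cb β f w, bw f w a ^ 2 := by
        refine Finset.sum_le_sum fun a ha => ?_
        unfold Cb at ha
        rw [← sq_abs (bw f w a)]
        exact pow_le_pow_left₀ hβ.le (Finset.mem_filter.1 ha).2 2
    _ ≤ ∑ a, bw f w a ^ 2 :=
        Finset.sum_le_sum_of_subset_of_nonneg (Finset.subset_univ _) fun a _ _ => sq_nonneg _
    _ ≤ 4 * d := sum_bw_sq_le hf w

/-- Small biases. `M` bounds the influences. -/
lemma small_bias (hf : Bde d ε f) (hε : 0 ≤ ε) {β M : ℝ} (hβ : 0 < β) (hM : 0 ≤ M)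
    (hM' : ∀ w, Iw f w ≤ M) :
    ∑ w, Iw f w ^ 3 * ∑ a ∈ univ.filter (fun a => |bw f w a| < β), bw f w a ^ 2
      ≤ M ^ 2 * β * (8 * (d : ℝ) ^ 4 * ε) := by
  calc ∑ w, Iw f w ^ 3 * ∑ a ∈ univ.filter (fun a => |bw f w a| < β), bw f w a ^ 2
      ≤ ∑ w, M ^ 2 * β * ∑ a, |bw f w a| * Iw f w := by
        refine Finset.sum_le_sum fun w _ => ?_
        have hP := Iw_nonneg f w
        have h1 : ∑ a ∈ univ.filter (fun a => |bw f w a| < β), bw f w a ^ 2 ≤
            ∑ a, β * |bw f w a| := by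
          calc ∑ a ∈ univ.filter (fun a => |bw f w a| < β), bw f w a ^ 2
              ≤ ∑ a ∈ univ.filter (fun a => |bw f w a| < β), β * |bw f w a| := by
                refine Finset.sum_le_sum fun a ha => ?_
                rw [← sq_abs, sq]
                exact mul_le_mul_of_nonneg_right (Finset.mem_filter.1 ha).2.le (abs_nonneg _)
            _ ≤ ∑ a, β * |bw f w a| :=
                Finset.sum_le_sum_of_subset_of_nonneg (Finset.subset_univ _)
                  fun a _ _ => mul_nonneg hβ.le (abs_nonneg _)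
        have h2 : 0 ≤ ∑ a, β * |bw f w a| :=
          Finset.sum_nonneg fun a _ => mul_nonneg hβ.le (abs_nonneg _)
        calc Iw f w ^ 3 * ∑ a ∈ univ.filter (fun a => |bw f w a| < β), bw f w a ^ 2
            ≤ Iw f w ^ 3 * ∑ a, β * |bw f w a| :=
              mul_le_mul_of_nonneg_left h1 (pow_nonneg hP 3)
          _ = Iw f w ^ 2 * (Iw f w * ∑ a, β * |bw f w a|) := by ring
          _ ≤ M ^ 2 * (Iw f w * ∑ a, β * |bw f w a|) :=
              mul_le_mul_of_nonneg_right (pow_le_pow_left₀ hP (hM' w) 2) (mul_nonneg hP h2)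
          _ = M ^ 2 * β * ∑ a, |bw f w a| * Iw f w := by
              rw [← Finset.mul_sum, ← Finset.sum_mul]
              ring
    _ = M ^ 2 * β * ∑ w, ∑ a, |bw f w a| * Iw f w := (Finset.mul_sum _ _ _).symm
    _ ≤ M ^ 2 * β * (8 * (d : ℝ) ^ 4 * ε) :=
        mul_le_mul_of_nonneg_left (sum_bw_abs_eps hf hε) (mul_nonneg (sq_nonneg M) hβ.le)

/-- Popularity. -/
lemma popular (hf : Bdd d f) {β M : ℝ} (hβ : 0 < β) (hM : 0 ≤ M)
    (hM' : ∀ w, Iw f w ≤ M) (c : Fin n) :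
    ∑ w ∈ univ.filter (fun w => c ∈ insert w (Cb β f w)), Iw f w ^ 3
      ≤ (4 * d / β ^ 2 + 1) * M ^ 3 := by
  classical
  have e2 : univ.filter (fun w => c ∈ insert w (Cb β f w)) ⊆
      univ.filter (fun w => w = c) ∪ univ.filter (fun w => c ∈ Cb β f w) := by
    intro w hw
    rw [Finset.mem_filter, Finset.mem_insert] at hw
    rw [Finset.mem_union, Finset.mem_filter, Finset.mem_filter]
    rcases hw.2 with h | h
    · exact Or.inl ⟨hw.1, h.symm⟩
    · exact Or.inr ⟨hw.1, h⟩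
  have e3 : ∑ w ∈ univ.filter (fun w => w = c), Iw f w ^ 3 ≤ M ^ 3 := by
    rw [Finset.filter_eq']
    split_ifs with h
    · rw [Finset.sum_singleton]
      exact pow_le_pow_left₀ (Iw_nonneg f c) (hM' c) 3
    · rw [Finset.sum_empty]
      positivity
  have e4 : ∑ w ∈ univ.filter (fun w => c ∈ Cb β f w), Iw f w ^ 3 ≤ 4 * d / β ^ 2 * M ^ 3 := by
    have h2 := sum_bw_sq hf (univ.filter (fun w => c ∈ Cb β f w)) c
    have h5 : ∑ w ∈ univ.filter (fun w => c ∈ Cb β f w), Iw f w ^ 3 * β ^ 2 ≤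
        M ^ 2 * ∑ w ∈ univ.filter (fun w => c ∈ Cb β f w), Iw f w * bw f w c ^ 2 := by
      rw [Finset.mul_sum]
      refine Finset.sum_le_sum fun w hw => ?_
      rw [Finset.mem_filter] at hw
      have h3 : β ≤ |bw f w c| := by
        have := hw.2
        unfold Cb at this
        exact (Finset.mem_filter.1 this).2
      have hP := Iw_nonneg f w
      have h4 : β ^ 2 ≤ bw f w c ^ 2 := by
        rw [← sq_abs (bw f w c)]
        exact pow_le_pow_left₀ hβ.le h3 2
      calc Iw f w ^ 3 * β ^ 2 = Iw f w ^ 2 * (Iw f w * β ^ 2) := by ring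
        _ ≤ M ^ 2 * (Iw f w * bw f w c ^ 2) :=
            mul_le_mul (pow_le_pow_left₀ hP (hM' w) 2) (mul_le_mul_of_nonneg_left h4 hP)
              (mul_nonneg hP (sq_nonneg _)) (sq_nonneg _)
    rw [← Finset.sum_mul] at h5
    have h6 : M ^ 2 * ∑ w ∈ univ.filter (fun w => c ∈ Cb β f w), Iw f w * bw f w c ^ 2 ≤
        M ^ 2 * (4 * (d : ℝ) * M) := by
      refine mul_le_mul_of_nonneg_left (h2.trans ?_) (sq_nonneg M)
      exact mul_le_mul_of_nonneg_left (hM' c) (by positivity)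
    rw [div_mul_eq_mul_div, le_div_iff₀ (by positivity)]
    calc _ ≤ _ := h5.trans h6
      _ = 4 * (d : ℝ) * M ^ 3 := by ring
  have e6 : ∑ w ∈ univ.filter (fun w => w = c) ∪ univ.filter (fun w => c ∈ Cb β f w), Iw f w ^ 3 ≤
      ∑ w ∈ univ.filter (fun w => w = c), Iw f w ^ 3 +
        ∑ w ∈ univ.filter (fun w => c ∈ Cb β f w), Iw f w ^ 3 := by
    rw [← Finset.sum_union_inter]
    have : 0 ≤ ∑ w ∈ univ.filter (fun w => w = c) ∩ univ.filter (fun w => c ∈ Cb β f w),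
        Iw f w ^ 3 := Finset.sum_nonneg fun w _ => pow_nonneg (Iw_nonneg f w) 3
    linarith
  have e7 := Finset.sum_le_sum_of_subset_of_nonneg (f := fun w => Iw f w ^ 3) e2
    (fun w _ _ => pow_nonneg (Iw_nonneg f w) 3)
  rw [add_mul, one_mul]
  linarith

end Pool.Agent.LQ
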