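import Mathlib
import Pool.Agent.LQ.Base
import Pool.Agent.SUB.FinLow1

/-! LQ, module Cold: the two base cases. -/

set_option linter.dupNamespace false
set_option linter.all false

namespace Pool.Agent.LQ

open Finset Pool.Agent.Helper11.Cube Pool.Agent.Helper11.AA Pool.Agent.SUB Pool.Agent.QAA
  Pool.Agent.AA2

variable {n d : ℕ} {ε : ℝ} {f : Cube n → ℝ}

/-- The first level carries more than half of the total influence. -/
lemma level_one (h : TN f < 3 / 2 * TI f) : TI f / 2 < ∑ w, coef f {w} ^ 2 := by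
  classical
  have h1 : ∑ w, coef f {w} ^ 2 =
      ∑ S : Finset (Fin n), (if S.card = 1 then coef f S ^ 2 else 0) := by
    rw [← Finset.sum_filter]
    have h2 : (univ.filter (fun S : Finset (Fin n) => S.card = 1)) =
        univ.image (fun w : Fin n => ({w} : Finset (Fin n))) := by
      ext S
      simp only [Finset.mem_filter, Finset.mem_univ, true_and, Finset.mem_image,
        Finset.card_eq_one]
      constructor
      · rintro ⟨a, ha⟩; exact ⟨a, ha.symm⟩
      · rintro ⟨a, ha⟩; exact ⟨a, ha.symm⟩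
    rw [h2, Finset.sum_image]
    intro a _ b _ hab
    exact Finset.singleton_injective hab
  have h2 : 2 * TI f ≤ TN f + ∑ w, coef f {w} ^ 2 := by
    rw [h1, TI_eq, TN, Finset.mul_sum, ← Finset.sum_add_distrib]
    apply Finset.sum_le_sum
    intro S _
    have hc := sq_nonneg (coef f S)
    rcases Nat.lt_or_ge S.card 2 with h3 | h3
    · interval_cases hS : S.card
      · norm_num
      · norm_num
        linarith
    · have h4 : (2 : ℝ) ≤ (S.card : ℝ) := by exact_mod_cast h3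
      rw [if_neg (by omega)]
      nlinarith [mul_nonneg (mul_nonneg (by linarith : (0:ℝ) ≤ (S.card : ℝ))
        (by linarith : (0 : ℝ) ≤ (S.card : ℝ) - 2)) hc]
  linarith

lemma sum_abs_coef_one (hf : Bdd d f) : ∑ w, |coef f {w}| ≤ 2 * (d : ℝ) ^ 2 := by
  have h1 : ∀ w, |coef f {w}| ≤ ex (fun x => |discreteDeriv w f x|) := by
    intro w
    rw [← fl1_ex_deriv]
    exact abs_ex_le _
  have h2 : ex (fun x => ∑ w, |discreteDeriv w f x|) ≤ ex (fun _ => 2 * (d : ℝ) ^ 2) :=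
    ex_mono (fun x => by
      have := sum_abs_deriv_le hf.1 hf.2 x
      linarith)
  rw [ex_const] at h2
  refine (Finset.sum_le_sum (fun w _ => h1 w)).trans ?_
  rw [← ex_sum]
  exact h2

/-- `(∑ x²)^5 ≤ (∑ x)^4 ∑ x^6`. -/
lemma holder5 {ι : Type*} (s : Finset ι) (x : ι → ℝ) (hx : ∀ i ∈ s, 0 ≤ x i) :
    (∑ i ∈ s, x i ^ 2) ^ 5 ≤ (∑ i ∈ s, x i) ^ 4 * ∑ i ∈ s, x i ^ 6 := by
  rcases (Finset.sum_nonneg hx).eq_or_lt with h0 | h0
  · have h1 := (Finset.sum_eq_zero_iff_of_nonneg hx).mp h0.symm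
    have h2 : ∑ i ∈ s, x i ^ 2 = 0 := Finset.sum_eq_zero (fun i hi => by rw [h1 i hi]; norm_num)
    rw [h2, ← h0]
    norm_num
  · obtain ⟨X, hX⟩ : ∃ X, X = ∑ i ∈ s, x i := ⟨_, rfl⟩
    rw [← hX] at h0 ⊢
    have h1 := Real.pow_arith_mean_le_arith_mean_pow s (fun i => x i / X) x
      (fun i hi => div_nonneg (hx i hi) h0.le)
      (by rw [← Finset.sum_div, ← hX, div_self h0.ne']) hx 5
    have h2 : ∑ i ∈ s, x i / X * x i = (∑ i ∈ s, x i ^ 2) / X := by
      rw [Finset.sum_div]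
      exact Finset.sum_congr rfl (fun i _ => by ring)
    have h3 : ∑ i ∈ s, x i / X * x i ^ 5 = (∑ i ∈ s, x i ^ 6) / X := by
      rw [Finset.sum_div]
      exact Finset.sum_congr rfl (fun i _ => by ring)
    rw [h2, h3, div_pow, div_le_div_iff₀ (by positivity) h0] at h1
    have h4 : (∑ i ∈ s, x i ^ 2) ^ 5 * X ≤ (X ^ 4 * ∑ i ∈ s, x i ^ 6) * X := by
      calc (∑ i ∈ s, x i ^ 2) ^ 5 * X ≤ (∑ i ∈ s, x i ^ 6) * X ^ 5 := h1
        _ = _ := by ring
    exact le_of_mul_le_mul_right h4 h0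

theorem cold (hd : 1 ≤ d) (hf : Bdd d f) (h0 : 0 < TI f) (h : TN f < 3 / 2 * TI f) :
    LZ f ≤ 2 * Real.log (8 * (d : ℝ) ^ 2) := by
  have hd' : (1 : ℝ) ≤ (d : ℝ) := by exact_mod_cast hd
  have hF := TF_pos h0
  have h1 := level_one h
  have h2 := sum_abs_coef_one hf
  have h3 := holder5 univ (fun w => |coef f {w}|) (fun w _ => abs_nonneg _)
  have h4 : ∑ w, |coef f {w}| ^ 2 = ∑ w, coef f {w} ^ 2 :=
    Finset.sum_congr rfl (fun w _ => sq_abs _)
  have h5 : ∑ w, |coef f {w}| ^ 6 ≤ TF f := by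
    apply Finset.sum_le_sum
    intro w _
    have h6 : coef f {w} ^ 2 ≤ Iw f w := by
      rw [Iw_coef]
      exact Finset.single_le_sum (f := fun S => coef f S ^ 2) (fun S _ => sq_nonneg _)
        (Finset.mem_filter.mpr ⟨Finset.mem_univ _, Finset.mem_singleton_self w⟩)
    calc |coef f {w}| ^ 6 = (coef f {w} ^ 2) ^ 3 := by rw [← sq_abs (coef f {w})]; ring
      _ ≤ Iw f w ^ 3 := pow_le_pow_left₀ (sq_nonneg _) h6 3
  rw [h4] at h3
  have h6 : (TI f / 2) ^ 5 ≤ (2 * (d : ℝ) ^ 2) ^ 4 * TF f := by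
    have e1 : (TI f / 2) ^ 5 ≤ (∑ w, coef f {w} ^ 2) ^ 5 :=
      pow_le_pow_left₀ (by linarith) h1.le 5
    have e2 : (∑ w, |coef f {w}|) ^ 4 ≤ (2 * (d : ℝ) ^ 2) ^ 4 :=
      pow_le_pow_left₀ (Finset.sum_nonneg (fun w _ => abs_nonneg _)) h2 4
    refine e1.trans (h3.trans ?_)
    exact mul_le_mul e2 h5 (Finset.sum_nonneg (fun w _ => pow_nonneg (abs_nonneg _) _))
      (by positivity)
  have h7 := Real.log_le_log (by positivity) h6
  rw [Real.log_pow, Real.log_mul (by positivity) hF.ne', Real.log_pow,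
    Real.log_div h0.ne' (by norm_num)] at h7
  have h8 : Real.log (8 * (d : ℝ) ^ 2) = 2 * Real.log 2 + Real.log (2 * (d : ℝ) ^ 2) := by
    have : (8 : ℝ) * (d : ℝ) ^ 2 = 2 ^ 2 * (2 * (d : ℝ) ^ 2) := by ring
    rw [this, Real.log_mul (by norm_num) (by positivity), Real.log_pow]
    norm_num
  have h9 : 0 < Real.log 2 := Real.log_pos (by norm_num)
  rw [h8]
  unfold LZ
  push_cast at h7
  linarith

theorem big (hd : 1 ≤ d) (hf : Bdd d f) (h0 : 0 < TI f) {a : Fin n}
    (h : TI f < 2 * d * Iw f a) :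
    LZ f ≤ 2 * Real.log (8 * (d : ℝ) ^ 2) := by
  have hd' : (1 : ℝ) ≤ (d : ℝ) := by exact_mod_cast hd
  have hF := TF_pos h0
  have h1 : TI f / (2 * d) ≤ Iw f a := by
    rw [div_le_iff₀ (by positivity)]
    linarith
  have h2 : Iw f a ^ 3 ≤ TF f :=
    Finset.single_le_sum (f := fun w => Iw f w ^ 3) (fun w _ => pow_nonneg (Iw_nonneg f w) 3)
      (Finset.mem_univ a)
  have h3 : (TI f / (2 * d)) ^ 3 ≤ TF f := (pow_le_pow_left₀ (by positivity) h1 3).trans h2
  have h4 := Real.log_le_log (by positivity) h3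
  rw [Real.log_pow, Real.log_div h0.ne' (by positivity), Real.log_mul (by norm_num) (by positivity)]
    at h4
  have h5 : TI f ≤ 2 * (d : ℝ) ^ 2 := sum_Iw_le hf univ
  have h6 := Real.log_le_log h0 h5
  rw [Real.log_mul (by norm_num) (by positivity), Real.log_pow] at h6
  have h8 : Real.log (8 * (d : ℝ) ^ 2) = 3 * Real.log 2 + 2 * Real.log d := by
    have : (8 : ℝ) * (d : ℝ) ^ 2 = 2 ^ 3 * (d : ℝ) ^ 2 := by ring
    rw [this, Real.log_mul (by norm_num) (by positivity), Real.log_pow, Real.log_pow]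
    norm_num
  have h9 : 0 < Real.log 2 := Real.log_pos (by norm_num)
  have h10 : 0 ≤ Real.log d := Real.log_nonneg hd'
  rw [h8]
  unfold LZ
  push_cast at h4 h6
  linarith

end Pool.Agent.LQ
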