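import Mathlib
import Pool.Agent.LQ.Bias
import Pool.Agent.AAL.PlantSum

/-! LQ, module ExpM: exponential moment of the biases (from `AAL.plant_sum`). -/

set_option linter.dupNamespace false

namespace Pool.Agent.LQ

open Finset Pool.Agent.Helper11.Cube Pool.Agent.Helper11.AA Pool.Agent.SUB Pool.Agent.QAA
  Pool.Agent.AA2

variable {n d : ℕ} {ε : ℝ} {f : Cube n → ℝ}

/-- Exponential moment: `K = 5d/β²`, `M ≥ P_w`, `W' = {P_w ≥ η M}`. -/
lemma exp_moment (hd : 1 ≤ d) (hf : Bde d ε f) (hε : 0 < ε) {β η M : ℝ} (hβ : 0 < β)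
    (hβ1 : β ≤ 1) (hη : 0 < η) (hM : 0 < M) (hM' : ∀ w, Iw f w ≤ M) :
    ∑ w ∈ univ.filter (fun w => η * M ≤ Iw f w),
      Iw f w ^ 3 * Real.exp ((∑ a ∈ Cb β f w, bw f w a ^ 2) / 4)
      ≤ 100 * (d : ℝ) ^ 4 * ε * M ^ 2 / (η * β ^ 4) := by
  have hd1 : (1 : ℝ) ≤ d := by exact_mod_cast hd
  set K : ℝ := 4 * d / β ^ 2 + 1 with hK
  have hK0 : 0 < K := by positivity
  have hK5 : K ≤ 5 * d / β ^ 2 := by
    have h1 : (1 : ℝ) ≤ d / β ^ 2 := by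
      rw [le_div_iff₀ (by positivity)]
      have : β ^ 2 ≤ 1 := pow_le_one₀ hβ.le hβ1
      linarith
    have h2 : 5 * (d : ℝ) / β ^ 2 = 4 * d / β ^ 2 + d / β ^ 2 := by ring
    rw [hK, h2]
    linarith
  set W : Finset (Fin n) := univ.filter (fun w => η * M ≤ Iw f w) with hW
  have hplant := AAL.plant_sum hf.1 hε.le hf.2 W (fun w => Cb β f w) (K := K) (π := K * M ^ 3)
    hK0.le (by positivity)
    (fun w _ => by
      have h1 := card_Cb hf.1 hβ w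
      have h2 : ((insert w (Cb β f w)).card : ℝ) ≤ (Cb β f w).card + 1 := by
        exact_mod_cast Finset.card_insert_le _ _
      linarith)
    (fun c => by
      refine le_trans ?_ (popular hf.1 hβ hM.le hM' c)
      refine Finset.sum_le_sum_of_subset_of_nonneg ?_
        (fun w _ _ => pow_nonneg (Iw_nonneg f w) 3)
      exact Finset.filter_subset_filter _ (Finset.subset_univ _))
  have hw : ∀ w ∈ W, η * M * (Iw f w ^ 3 * Real.exp ((∑ a ∈ Cb β f w, bw f w a ^ 2) / 4)) ≤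
      Iw f w ^ 4 * Real.exp (∑ a ∈ Cb β f w, KL (bw f w a)) := by
    intro w hwW
    have h0 := Iw_nonneg f w
    have h1 : η * M ≤ Iw f w := (Finset.mem_filter.1 hwW).2
    have h2 : (∑ a ∈ Cb β f w, bw f w a ^ 2) / 4 ≤ ∑ a ∈ Cb β f w, KL (bw f w a) := by
      rw [Finset.sum_div]
      refine Finset.sum_le_sum fun a _ => ?_
      have h3 := KL_ge (abs_bw_le f w a)
      nlinarith [sq_nonneg (bw f w a)]
    calc η * M * (Iw f w ^ 3 * Real.exp ((∑ a ∈ Cb β f w, bw f w a ^ 2) / 4))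
        ≤ Iw f w * (Iw f w ^ 3 * Real.exp ((∑ a ∈ Cb β f w, bw f w a ^ 2) / 4)) :=
          mul_le_mul_of_nonneg_right h1 (by positivity)
      _ = Iw f w ^ 4 * Real.exp ((∑ a ∈ Cb β f w, bw f w a ^ 2) / 4) := by ring
      _ ≤ _ := mul_le_mul_of_nonneg_left (Real.exp_le_exp.2 h2) (by positivity)
  have hsum : η * M * ∑ w ∈ W, Iw f w ^ 3 *
      Real.exp ((∑ a ∈ Cb β f w, bw f w a ^ 2) / 4) ≤
        4 * (d : ℝ) ^ 2 * K * (K * M ^ 3) * ε := by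
    rw [Finset.mul_sum]
    exact (Finset.sum_le_sum hw).trans hplant
  have hKK : K * K ≤ 25 * (d : ℝ) ^ 2 / β ^ 4 := by
    have h1 : K * K ≤ (5 * d / β ^ 2) * (5 * d / β ^ 2) :=
      mul_le_mul hK5 hK5 hK0.le (by positivity)
    have h2 : (5 * (d : ℝ) / β ^ 2) * (5 * d / β ^ 2) = 25 * (d : ℝ) ^ 2 / β ^ 4 := by
      field_simp
      ring
    linarith
  rw [le_div_iff₀ (by positivity)]
  set Sg : ℝ := ∑ w ∈ W, Iw f w ^ 3 * Real.exp ((∑ a ∈ Cb β f w, bw f w a ^ 2) / 4) with hS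
  have h1 : 4 * (d : ℝ) ^ 2 * K * (K * M ^ 3) * ε ≤
      4 * (d : ℝ) ^ 2 * (25 * (d : ℝ) ^ 2 / β ^ 4) * M ^ 3 * ε := by
    calc 4 * (d : ℝ) ^ 2 * K * (K * M ^ 3) * ε = 4 * (d : ℝ) ^ 2 * (K * K) * M ^ 3 * ε := by ring
      _ ≤ _ := by gcongr
  have h3 := hsum.trans h1
  have h4 : 4 * (d : ℝ) ^ 2 * (25 * (d : ℝ) ^ 2 / β ^ 4) * M ^ 3 * ε * β ^ 4 =
      M * (100 * (d : ℝ) ^ 4 * ε * M ^ 2) := by
    field_simp
    ring
  have h5 : η * M * Sg * β ^ 4 ≤ M * (100 * (d : ℝ) ^ 4 * ε * M ^ 2) := by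
    rw [← h4]
    exact mul_le_mul_of_nonneg_right h3 (by positivity)
  have h6 : M * (Sg * (η * β ^ 4)) ≤ M * (100 * (d : ℝ) ^ 4 * ε * M ^ 2) := by
    calc M * (Sg * (η * β ^ 4)) = η * M * Sg * β ^ 4 := by ring
      _ ≤ _ := h5
  exact le_of_mul_le_mul_left h6 hM

end Pool.Agent.LQ
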