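import Mathlib
import Pool.Agent.LQ.Defs
import Pool.Agent.Helper11.LowLevel
import Pool.Agent.QAA.Pop
import Pool.Agent.QAA.Inf

/-! LQ, module Restr: the functionals of the restrictions `rs a (±1) f`. -/

set_option linter.dupNamespace false

namespace Pool.Agent.LQ

open Finset Pool.Agent.Helper11.Cube Pool.Agent.Helper11.AA Pool.Agent.SUB Pool.Agent.QAA
  Pool.Agent.AA2

variable {n d : ℕ} {ε : ℝ} {f : Cube n → ℝ}

lemma Bde_rs (hf : Bde d ε f) (hε : 0 ≤ ε) (a : Fin n) (u : ℤˣ) : Bde d ε (rs a u f) := by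
  refine ⟨bdd_rs hf.1 a u, ?_⟩
  intro w x
  by_cases h : w = a
  · subst h
    have h1 : discreteDeriv w (rs w u f) x = 0 := deriv_restr_self w u f x
    rw [h1, abs_zero]
    exact hε
  · have h1 : discreteDeriv w (rs a u f) x = discreteDeriv w f (Function.update x a u) :=
      deriv_restr h u f x
    rw [h1]
    exact hf.2 w _

private lemma u1 : (((1 : ℤˣ) : ℤ) : ℝ) = 1 := by simp

private lemma u2 : (((-1 : ℤˣ) : ℤ) : ℝ) = -1 := by simp

lemma TI_rs (f : Cube n → ℝ) (a : Fin n) :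
    TI (rs a 1 f) + TI (rs a (-1) f) = 2 * (TI f - Iw f a) := by
  unfold TI
  rw [← Finset.sum_add_distrib, ← Finset.add_sum_erase univ _ (mem_univ a),
    ← Finset.add_sum_erase univ (fun w => Iw f w) (mem_univ a), Iw_rs_self, Iw_rs_self]
  have h1 : ∀ w ∈ univ.erase a, Iw (rs a 1 f) w + Iw (rs a (-1) f) w = 2 * Iw f w := by
    intro w hw
    have hne := Finset.ne_of_mem_erase hw
    rw [Iw_rs f hne, Iw_rs f hne, u1, u2]
    ring
  rw [Finset.sum_congr rfl h1, ← Finset.mul_sum]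
  ring

lemma TF_rs (f : Cube n → ℝ) (a : Fin n) :
    TF (rs a 1 f) + TF (rs a (-1) f) = 2 * (TF f - Iw f a ^ 3 + 3 * BA f a) := by
  unfold TF BA
  rw [← Finset.sum_add_distrib, ← Finset.add_sum_erase univ _ (mem_univ a),
    ← Finset.add_sum_erase univ (fun w => Iw f w ^ 3) (mem_univ a),
    ← Finset.add_sum_erase univ (fun w => Iw f w ^ 3 * bw f w a ^ 2) (mem_univ a),
    Iw_rs_self, Iw_rs_self, bw_self]
  have h1 : ∀ w ∈ univ.erase a, Iw (rs a 1 f) w ^ 3 + Iw (rs a (-1) f) w ^ 3 =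
      2 * Iw f w ^ 3 + 6 * (Iw f w ^ 3 * bw f w a ^ 2) := by
    intro w hw
    have hne := Finset.ne_of_mem_erase hw
    rw [Iw_rs f hne, Iw_rs f hne, u1, u2]
    ring
  rw [Finset.sum_congr rfl h1, Finset.sum_add_distrib, ← Finset.mul_sum, ← Finset.mul_sum]
  ring

lemma Rel_rs (f : Cube n → ℝ) {a : Fin n} (ha : Iw f a ≠ 0) (u : ℤˣ) :
    (Rel (rs a u f)).card < (Rel f).card := by
  have hmem : a ∈ Rel f := by
    rw [Rel, Finset.mem_filter]
    exact ⟨mem_univ a, ha⟩
  have hsub : Rel (rs a u f) ⊆ (Rel f).erase a := by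
    intro w hw
    rw [Rel, Finset.mem_filter] at hw
    have hne : w ≠ a := by
      rintro rfl
      exact hw.2 (Iw_rs_self f w u)
    rw [Finset.mem_erase, Rel, Finset.mem_filter]
    refine ⟨hne, mem_univ w, ?_⟩
    intro h0
    apply hw.2
    rw [Iw_rs f hne, h0, zero_mul]
  exact lt_of_le_of_lt (Finset.card_le_card hsub) (Finset.card_erase_lt_of_mem hmem)

private lemma coef_zero {f : Cube n → ℝ} {a : Fin n} (ha : Iw f a = 0) (S : Finset (Fin n)) :
    coef (discreteDeriv a f) S = 0 := by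
  have h1 : ex (fun x => discreteDeriv a f x ^ 2) = 0 := ha
  rw [parseval] at h1
  have h2 := (Finset.sum_eq_zero_iff_of_nonneg fun S _ => sq_nonneg _).mp h1 S (mem_univ S)
  exact pow_eq_zero_iff (two_ne_zero) |>.mp h2

private lemma deriv_zero {f : Cube n → ℝ} {a : Fin n} (ha : Iw f a = 0) (x : Cube n) :
    discreteDeriv a f x = 0 := by
  rw [inversion (discreteDeriv a f) x]
  refine Finset.sum_eq_zero fun S _ => ?_
  rw [coef_zero ha, zero_mul]

lemma BA_eq_zero (f : Cube n → ℝ) {a : Fin n} (ha : Iw f a = 0) : BA f a = 0 := by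
  unfold BA
  refine Finset.sum_eq_zero fun w _ => ?_
  have h0 : ex (fun x => discreteDeriv a (discreteDeriv w f) x ^ 2) = 0 := by
    have h1 : (fun x => discreteDeriv a (discreteDeriv w f) x ^ 2) = fun _ => (0 : ℝ) := by
      funext x
      rw [deriv_comm]
      have h2 : discreteDeriv a f = fun _ => (0 : ℝ) := funext fun x => deriv_zero ha x
      rw [h2]
      unfold discreteDeriv
      simp
    rw [h1, ex_const]
  have h3 := bw_sq_le f w a
  rw [h0, mul_zero] at h3
  have h4 : 0 ≤ bw f w a ^ 2 * Iw f w := mul_nonneg (sq_nonneg _) (Iw_nonneg f w)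
  have h5 : bw f w a ^ 2 * Iw f w = 0 := le_antisymm h3 h4
  have h6 : Iw f w ^ 3 * bw f w a ^ 2 = Iw f w ^ 2 * (bw f w a ^ 2 * Iw f w) := by ring
  rw [h6, h5, mul_zero]

lemma nA_eq_zero (f : Cube n → ℝ) {a : Fin n} (ha : Iw f a = 0) : nA f a = 0 := by
  unfold nA
  refine Finset.sum_eq_zero fun S hS => ?_
  have haS : a ∈ S := (Finset.mem_filter.mp hS).2
  have h1 := Pool.Agent.Results.MP_f992e4_an.LowLevel.coef_deriv_of_notMem f a
    (S := S.erase a) (Finset.notMem_erase a S)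
  rw [coef_zero ha, Finset.insert_erase haS] at h1
  rw [← h1]
  ring

end Pool.Agent.LQ
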