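import Mathlib

/-! LQ, module Tang: the tangent inequality (real numbers only). -/

set_option linter.dupNamespace false

namespace Pool.Agent.LQ

/-- `(2 - x²) e^x ≤ 2 (1 + x)` for `x ≥ 0`. -/
lemma two_sub_sq_mul_exp {x : ℝ} (hx : 0 ≤ x) : (2 - x ^ 2) * Real.exp x ≤ 2 * (1 + x) := by
  -- second derivative argument
  have hd2 : ∀ y : ℝ, HasDerivAt (fun t => 2 - (2 - 2 * t - t ^ 2) * Real.exp t)
      ((4 * y + y ^ 2) * Real.exp y) y := by
    intro y
    have h1 : HasDerivAt (fun t : ℝ => 2 - 2 * t - t ^ 2) (-(2 * 1) - (2 : ℕ) * y ^ (2 - 1)) y :=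
      (((hasDerivAt_id' y).const_mul 2).const_sub 2).fun_sub (hasDerivAt_pow 2 y)
    have h2 := (h1.fun_mul (Real.hasDerivAt_exp y)).const_sub 2
    refine h2.congr_deriv ?_
    norm_num
    ring
  have hd1 : ∀ y : ℝ, HasDerivAt (fun t => 2 * (1 + t) - (2 - t ^ 2) * Real.exp t)
      (2 - (2 - 2 * y - y ^ 2) * Real.exp y) y := by
    intro y
    have h1 : HasDerivAt (fun t : ℝ => 2 - t ^ 2) (-((2 : ℕ) * y ^ (2 - 1))) y :=
      (hasDerivAt_pow 2 y).const_sub 2
    have h3 : HasDerivAt (fun t : ℝ => 2 * (1 + t)) (2 * 1) y :=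
      ((hasDerivAt_id' y).const_add 1).const_mul 2
    have h2 := h3.fun_sub (h1.fun_mul (Real.hasDerivAt_exp y))
    refine h2.congr_deriv ?_
    norm_num
    ring
  have m2 : MonotoneOn (fun t : ℝ => 2 - (2 - 2 * t - t ^ 2) * Real.exp t) (Set.Ici 0) := by
    apply monotoneOn_of_deriv_nonneg (convex_Ici 0)
    · exact fun y _ => (hd2 y).continuousAt.continuousWithinAt
    · exact fun y _ => (hd2 y).differentiableAt.differentiableWithinAt
    · intro y hy
      rw [interior_Ici] at hy
      rw [(hd2 y).deriv]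
      have : (0 : ℝ) < y := hy
      positivity
  have p1 : ∀ y : ℝ, 0 ≤ y → 0 ≤ 2 - (2 - 2 * y - y ^ 2) * Real.exp y := by
    intro y hy
    have h := m2 (Set.mem_Ici.2 le_rfl) (Set.mem_Ici.2 hy) hy
    simpa using h
  have m1 : MonotoneOn (fun t : ℝ => 2 * (1 + t) - (2 - t ^ 2) * Real.exp t) (Set.Ici 0) := by
    apply monotoneOn_of_deriv_nonneg (convex_Ici 0)
    · exact fun y _ => (hd1 y).continuousAt.continuousWithinAt
    · exact fun y _ => (hd1 y).differentiableAt.differentiableWithinAt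
    · intro y hy
      rw [interior_Ici] at hy
      rw [(hd1 y).deriv]
      exact p1 y (le_of_lt hy)
  have h := m1 (Set.mem_Ici.2 le_rfl) (Set.mem_Ici.2 hx) hx
  simp at h
  linarith

/-- `e^{-x} - 1 + x ≥ x² / (2 (1 + x))` for `x ≥ 0`. (From `(2 - x²) e^x ≤ 2 (1 + x)`.) -/
lemma exp_neg_lower {x : ℝ} (hx : 0 ≤ x) :
    x ^ 2 / (2 * (1 + x)) ≤ Real.exp (-x) - 1 + x := by
  have h := two_sub_sq_mul_exp hx
  have he : 0 < Real.exp x := Real.exp_pos x
  have h1 : (0 : ℝ) < 1 + x := by linarith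
  rw [Real.exp_neg]
  have h2 : (2 - x ^ 2) / (2 * (1 + x)) ≤ (Real.exp x)⁻¹ := by
    rw [div_le_iff₀ (by positivity), inv_mul_eq_div, le_div_iff₀ he]
    exact h
  have h3 : x ^ 2 / (2 * (1 + x)) = (2 - x ^ 2) / (2 * (1 + x)) - 1 + x := by
    field_simp
    ring
  linarith

/-- The tangent inequality. -/
theorem tangent {A B u v : ℝ} (hA : 1 ≤ A) (hB : 1 ≤ B) (hA' : 1 ≤ A + u) (hB' : 1 ≤ B + v) :
    (A + u) * (B + v) ≤ A * B + B * (Real.exp u - 1) + A * (Real.exp v - 1) := by
  have key : u * v ≤ B * (Real.exp u - 1 - u) + A * (Real.exp v - 1 - v) := by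
    have hu0 : 0 ≤ Real.exp u - 1 - u := by linarith [Real.add_one_le_exp u]
    have hv0 : 0 ≤ Real.exp v - 1 - v := by linarith [Real.add_one_le_exp v]
    rcases le_total 0 u with hu | hu
    · rcases le_total 0 v with hv | hv
      · have h1 := Real.quadratic_le_exp_of_nonneg hu
        have h2 := Real.quadratic_le_exp_of_nonneg hv
        have h3 : Real.exp u - 1 - u ≤ B * (Real.exp u - 1 - u) := by nlinarith
        have h4 : Real.exp v - 1 - v ≤ A * (Real.exp v - 1 - v) := by nlinarith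
        nlinarith [sq_nonneg (u - v)]
      · have : u * v ≤ 0 := mul_nonpos_of_nonneg_of_nonpos hu hv
        have h3 : 0 ≤ B * (Real.exp u - 1 - u) := mul_nonneg (by linarith) hu0
        have h4 : 0 ≤ A * (Real.exp v - 1 - v) := mul_nonneg (by linarith) hv0
        linarith
    · rcases le_total 0 v with hv | hv
      · have : u * v ≤ 0 := mul_nonpos_of_nonpos_of_nonneg hu hv
        have h3 : 0 ≤ B * (Real.exp u - 1 - u) := mul_nonneg (by linarith) hu0
        have h4 : 0 ≤ A * (Real.exp v - 1 - v) := mul_nonneg (by linarith) hv0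
        linarith
      · obtain ⟨x, rfl⟩ : ∃ x, u = -x := ⟨-u, by ring⟩
        obtain ⟨y, rfl⟩ : ∃ y, v = -y := ⟨-v, by ring⟩
        have hx : 0 ≤ x := by linarith
        have hy : 0 ≤ y := by linarith
        have h1 := exp_neg_lower hx
        have h2 := exp_neg_lower hy
        have hx1 : (0 : ℝ) < 1 + x := by linarith
        have hy1 : (0 : ℝ) < 1 + y := by linarith
        have h3 : (1 + y) * (x ^ 2 / (2 * (1 + x))) ≤ B * (Real.exp (-x) - 1 - -x) := by
          have : 0 ≤ x ^ 2 / (2 * (1 + x)) := by positivity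
          calc (1 + y) * (x ^ 2 / (2 * (1 + x))) ≤ B * (x ^ 2 / (2 * (1 + x))) := by
                apply mul_le_mul_of_nonneg_right _ this; linarith
            _ ≤ _ := by apply mul_le_mul_of_nonneg_left _ (by linarith); linarith
        have h4 : (1 + x) * (y ^ 2 / (2 * (1 + y))) ≤ A * (Real.exp (-y) - 1 - -y) := by
          have : 0 ≤ y ^ 2 / (2 * (1 + y)) := by positivity
          calc (1 + x) * (y ^ 2 / (2 * (1 + y))) ≤ A * (y ^ 2 / (2 * (1 + y))) := by
                apply mul_le_mul_of_nonneg_right _ this; linarith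
            _ ≤ _ := by apply mul_le_mul_of_nonneg_left _ (by linarith); linarith
        have h5 : x * y ≤ (1 + y) * (x ^ 2 / (2 * (1 + x))) + (1 + x) * (y ^ 2 / (2 * (1 + y))) := by
          rw [← sub_nonneg]
          have : (1 + y) * (x ^ 2 / (2 * (1 + x))) + (1 + x) * (y ^ 2 / (2 * (1 + y))) - x * y
              = ((1 + y) * x - (1 + x) * y) ^ 2 / (2 * (1 + x) * (1 + y)) := by
            field_simp
            ring
          rw [this]
          positivity
        have h6 : -x * -y = x * y := by ring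
        rw [h6]
        linarith
  nlinarith [key]

end Pool.Agent.LQ
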