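import Mathlib
import Pool.Agent.LQ.Base
import Pool.Agent.LQ.Restr
import Pool.Agent.LQ.RestrN
import Pool.Agent.LQ.Tang

/-! LQ, module Flat: one restriction step, `x_a = s` with probability proportional to `I_s`. -/

set_option linter.dupNamespace false

namespace Pool.Agent.LQ

open Finset Pool.Agent.Helper11.Cube Pool.Agent.Helper11.AA Pool.Agent.SUB Pool.Agent.QAA
  Pool.Agent.AA2

variable {n d : ℕ} {ε : ℝ} {f : Cube n → ℝ}

/-- One value `u`: weighted by `I_u = TI (rs a u f)` (both sides vanish if `I_u = 0`).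
`Z(f) ≤ Z(f_u) + 2 (I/I_u - 1) + (Y_u/Y - 1)/2` with `Y = F/I`, the hypothesis for `f_u`, and the
tangent inequality `A_u B_u ≤ AB + B (I/I_u - 1) + A (J_u/J - 1)`, `J = N/I`. -/
lemma flat_one (hd : 1 ≤ d) (hf : Bde d ε f) (h0 : 0 < TI f) (a : Fin n) (u : ℤˣ) {c : ℝ}
    (ih : 0 < TI (rs a u f) →
      LZ (rs a u f) ≤ c + 1200 * (LA d ε (rs a u f) * LB (rs a u f))) :
    TI (rs a u f) * (LZ f - c - 1200 * (LA d ε f * LB f)) ≤
      1200 * LB f * (TI f - TI (rs a u f))
      + 1200 * LA d ε f * (TN (rs a u f) * TI f / TN f - TI (rs a u f))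
      + 2 * (TI f - TI (rs a u f))
      + (TF (rs a u f) * TI f / TF f - TI (rs a u f)) / 2 := by
  have hε : 0 < ε := eps_pos hf h0
  have hd0 : (0 : ℝ) < d := by exact_mod_cast hd
  have hld : 0 ≤ Real.log (d : ℝ) := Real.log_nonneg (by exact_mod_cast hd)
  have hB1 := one_le_LB h0
  have hA1 : 1 ≤ LA d ε f := by linarith [LA_ge hd hf h0]
  have hN : 0 < TN f := h0.trans_le (TI_le_TN f)
  have hF : 0 < TF f := TF_pos h0
  generalize hg : rs a u f = g at *
  have hgB : Bde d ε g := hg ▸ Bde_rs hf hε.le a u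
  rcases (TI_nonneg g).eq_or_lt with h1 | h1
  · have h2 : 0 ≤ TN g := (TI_nonneg g).trans (TI_le_TN g)
    have h3 := TF_nonneg g
    rw [← h1]
    have h4 : 0 ≤ TN g * TI f / TN f := by positivity
    have h5 : 0 ≤ TF g * TI f / TF f := by positivity
    have h6 : 0 ≤ 1200 * LB f * (TI f - 0) := by
      rw [sub_zero]
      positivity
    have h7 : 0 ≤ 1200 * LA d ε f * (TN g * TI f / TN f - 0) := by
      rw [sub_zero]
      have : 0 ≤ LA d ε f := by linarith
      positivity
    linarith
  · have hZ := ih h1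
    have hNg : 0 < TN g := h1.trans_le (TI_le_TN g)
    have hFg : 0 < TF g := TF_pos h1
    -- the difference of the potentials
    have e1 : TI g * (LZ f - LZ g) ≤
        2 * (TI f - TI g) + (TF g * TI f / TF f - TI g) / 2 := by
      have k1 : LZ f - LZ g = 2 * Real.log (TI f / TI g) +
          Real.log (TF g * TI f / (TF f * TI g)) / 2 := by
        unfold LZ
        rw [Real.log_div h0.ne' h1.ne', Real.log_div (by positivity) (by positivity),
          Real.log_mul hFg.ne' h0.ne', Real.log_mul hF.ne' h1.ne']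
        ring
      have k2 : Real.log (TI f / TI g) ≤ TI f / TI g - 1 :=
        Real.log_le_sub_one_of_pos (by positivity)
      have k3 : Real.log (TF g * TI f / (TF f * TI g)) ≤ TF g * TI f / (TF f * TI g) - 1 :=
        Real.log_le_sub_one_of_pos (by positivity)
      have k4 : LZ f - LZ g ≤ 2 * (TI f / TI g - 1) + (TF g * TI f / (TF f * TI g) - 1) / 2 := by
        rw [k1]
        linarith
      refine (mul_le_mul_of_nonneg_left k4 h1.le).trans (le_of_eq ?_)
      field_simp
    -- the tangent inequality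
    have e2 : TI g * (LA d ε g * LB g) ≤ TI g * (LA d ε f * LB f) + LB f * (TI f - TI g) +
        LA d ε f * (TN g * TI f / TN f - TI g) := by
      have k1 : LA d ε g = LA d ε f + Real.log (TI f / TI g) := by
        unfold LA
        rw [Real.log_div (by positivity) h1.ne', Real.log_div (by positivity) h0.ne',
          Real.log_div h0.ne' h1.ne']
        ring
      have k2 : LB g = LB f + Real.log (TN g / TI g / (TN f / TI f)) := by
        have k0 : Real.log (TN g / TI g / (TN f / TI f)) =
            Real.log (TN g / TI g) - Real.log (TN f / TI f) :=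
          Real.log_div (by positivity) (by positivity)
        unfold LB
        rw [k0]
        ring
      have hA' : 1 ≤ LA d ε g := by linarith [LA_ge hd hgB h1]
      have hB' := one_le_LB h1
      have k3 := tangent hA1 hB1 (k1 ▸ hA') (k2 ▸ hB')
      rw [← k1, ← k2, Real.exp_log (by positivity), Real.exp_log (by positivity)] at k3
      refine (mul_le_mul_of_nonneg_left k3 h1.le).trans (le_of_eq ?_)
      field_simp
    have e3 : TI g * (LZ g - c) ≤ TI g * (1200 * (LA d ε g * LB g)) :=
      mul_le_mul_of_nonneg_left (by linarith) h1.le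
    calc TI g * (LZ f - c - 1200 * (LA d ε f * LB f))
        = TI g * (LZ f - LZ g) + TI g * (LZ g - c) - 1200 * (TI g * (LA d ε f * LB f)) := by ring
      _ ≤ (2 * (TI f - TI g) + (TF g * TI f / TF f - TI g) / 2) +
          1200 * (TI g * (LA d ε f * LB f) + LB f * (TI f - TI g) +
            LA d ε f * (TN g * TI f / TN f - TI g)) - 1200 * (TI g * (LA d ε f * LB f)) := by
          have e4 : TI g * (1200 * (LA d ε g * LB g)) = 1200 * (TI g * (LA d ε g * LB g)) := by
            ring
          linarith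
      _ = _ := by ring

/-- The step for the coordinate `a` (sum of `flat_one` over `u = ±1`, halved). -/
theorem flat (hd : 1 ≤ d) (hf : Bde d ε f) (h0 : 0 < TI f) (a : Fin n) {c : ℝ}
    (ih : ∀ u : ℤˣ, 0 < TI (rs a u f) →
      LZ (rs a u f) ≤ c + 1200 * (LA d ε (rs a u f) * LB (rs a u f))) :
    (TI f - Iw f a) * (LZ f - c - 1200 * (LA d ε f * LB f)) ≤
      1200 * LB f * Iw f a + 1200 * LA d ε f * (Iw f a - nA f a * TI f / TN f)
      + 2 * Iw f a + (Iw f a - Iw f a ^ 3 * TI f / TF f + 3 * BA f a * TI f / TF f) / 2 := by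
  have hN : 0 < TN f := h0.trans_le (TI_le_TN f)
  have hF : 0 < TF f := TF_pos h0
  have h1 := flat_one hd hf h0 a 1 (ih 1)
  have h2 := flat_one hd hf h0 a (-1) (ih (-1))
  have h3 := TI_rs f a
  have h4 := TN_rs f a
  have h5 := TF_rs f a
  obtain ⟨Q, hQ⟩ : ∃ Q, Q = LZ f - c - 1200 * (LA d ε f * LB f) := ⟨_, rfl⟩
  rw [← hQ] at h1 h2 ⊢
  have s1 : (TI f - Iw f a) * Q = (TI (rs a 1 f) * Q + TI (rs a (-1) f) * Q) / 2 := by
    rw [← add_mul, h3]
    ring
  have s2 : (TN (rs a 1 f) * TI f / TN f + TN (rs a (-1) f) * TI f / TN f) / 2 =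
      TI f - nA f a * TI f / TN f := by
    rw [← add_div, ← add_mul, h4]
    field_simp
  have s3 : (TF (rs a 1 f) * TI f / TF f + TF (rs a (-1) f) * TI f / TF f) / 2 =
      TI f - Iw f a ^ 3 * TI f / TF f + 3 * BA f a * TI f / TF f := by
    rw [← add_div, ← add_mul, h5]
    field_simp
  rw [s1]
  have s4 : 1200 * LA d ε f * (Iw f a - nA f a * TI f / TN f) = 1200 * LA d ε f *
      ((TN (rs a 1 f) * TI f / TN f - TI (rs a 1 f)) +
        (TN (rs a (-1) f) * TI f / TN f - TI (rs a (-1) f))) / 2 := by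
    have : (TN (rs a 1 f) * TI f / TN f - TI (rs a 1 f)) +
        (TN (rs a (-1) f) * TI f / TN f - TI (rs a (-1) f)) =
        2 * (Iw f a - nA f a * TI f / TN f) := by linarith
    rw [this]
    ring
  have s5 : 1200 * LB f * Iw f a = 1200 * LB f *
      ((TI f - TI (rs a 1 f)) + (TI f - TI (rs a (-1) f))) / 2 := by
    have : (TI f - TI (rs a 1 f)) + (TI f - TI (rs a (-1) f)) = 2 * Iw f a := by linarith
    rw [this]
    ring
  rw [s4, s5]
  linarith

end Pool.Agent.LQ
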