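import Mathlib
import Pool.Agent.LQ.Av

/-! LQ, module Hot: averaging out a hot coordinate. -/

set_option linter.dupNamespace false

namespace Pool.Agent.LQ

open Finset Pool.Agent.Helper11.Cube Pool.Agent.Helper11.AA Pool.Agent.SUB Pool.Agent.QAA
  Pool.Agent.AA2

variable {n d : ℕ} {ε : ℝ} {f : Cube n → ℝ}

/-- `I > 0` after averaging out `a`. -/
lemma TI_av_pos (hf : Bdd d f) (h0 : 0 < TI f) {a : Fin n} (h2 : 2 * d * Iw f a ≤ TI f) :
    0 < TI (av a f) := by
  have := TI_av_ge hf a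
  linarith

/-- Real form of the hot step: `x = dp`, `A, B` and `A', B'` before and after. -/
private lemma hot_real {Z Z' A A' B B' x φ c : ℝ} (hx0 : 0 ≤ x) (hx : x ≤ 1 / 2)
    (hA : 4.85 ≤ A) (hBA : 4 * B ≤ A) (hB' : 1 ≤ B') (hA' : A' ≤ A + 2 * x)
    (hBB : B' ≤ B + 2 * x) (hZ : Z ≤ Z' + 5 * x - φ / 2) (hφ : 9600 * A * x ≤ φ)
    (ih : Z' ≤ c + 1200 * (A' * B')) : Z ≤ c + 1200 * (A * B) := by
  have h1 : A' * B' ≤ (A + 2 * x) * (B + 2 * x) := by
    calc A' * B' ≤ (A + 2 * x) * B' := by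
          apply mul_le_mul_of_nonneg_right hA'; linarith
      _ ≤ (A + 2 * x) * (B + 2 * x) := by
          apply mul_le_mul_of_nonneg_left hBB; linarith
  have h2 : 0 ≤ x * (A - 4 * B) := mul_nonneg hx0 (by linarith)
  have h3 : 0 ≤ x * (1 / 2 - x) := mul_nonneg hx0 (by linarith)
  have h4 : 0 ≤ x * (A - 4.85) := mul_nonneg hx0 (by linarith)
  nlinarith [h1, h2, h3, h4]

/-- Hot step. With `p = P_a/I`, `φ = P_a^3/F ≥ 9600 d A p`: `Z ≤ Z' + 5dp - φ/2`,
`A'B' ≤ AB + dp(2.5A + 2)`. -/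
theorem hot (hd : 1 ≤ d) (hf : Bde d ε f) (h0 : 0 < TI f) {a : Fin n} (ha : 0 < Iw f a)
    (h2 : 2 * d * Iw f a ≤ TI f)
    (hh : 9600 * d * LA d ε f * TF f ≤ Iw f a ^ 2 * TI f) {c : ℝ}
    (ih : LZ (av a f) ≤ c + 1200 * (LA d ε (av a f) * LB (av a f))) :
    LZ f ≤ c + 1200 * (LA d ε f * LB f) := by
  have hd1 : (1 : ℝ) ≤ d := by exact_mod_cast hd
  have hI' : 0 < TI (av a f) := TI_av_pos hf.1 h0 h2
  have hIge := TI_av_ge hf.1 a
  have hF' : 0 < TF (av a f) := TF_pos hI'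
  have hF : 0 < TF f := TF_pos h0
  have hFle := TF_av_le f a
  have hε : 0 < ε := eps_pos hf h0
  have hN' : 0 < TN (av a f) := lt_of_lt_of_le hI' (TI_le_TN _)
  have hN : 0 < TN f := lt_of_lt_of_le h0 (TI_le_TN _)
  have hNle := TN_av_le f a
  have hD : 0 < (2 * (d : ℝ)) ^ 8 * ε := by positivity
  -- the logarithm of `I`
  have hx : Real.log (TI f) - Real.log (TI (av a f)) ≤ 2 * (d * Iw f a / TI f) := by
    rw [← Real.log_div h0.ne' hI'.ne']
    refine (Real.log_le_sub_one_of_pos (div_pos h0 hI')).trans ?_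
    rw [div_sub_one hI'.ne', div_le_iff₀ hI']
    have e : 2 * (d * Iw f a / TI f) * TI (av a f)
        = (d * Iw f a) * (2 * TI (av a f) / TI f) := by
      field_simp
    rw [e]
    have h3 : 1 ≤ 2 * TI (av a f) / TI f := by
      rw [le_div_iff₀ h0]; linarith
    have h4 : 0 ≤ d * Iw f a := by positivity
    nlinarith [mul_le_mul_of_nonneg_left h3 h4]
  -- the logarithm of `F`
  have hF2 : Real.log (TF (av a f)) - Real.log (TF f) ≤ - (Iw f a ^ 3 / TF f) := by
    rw [← Real.log_div hF'.ne' hF.ne']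
    refine (Real.log_le_sub_one_of_pos (div_pos hF' hF)).trans ?_
    rw [div_sub_one hF.ne', ← neg_div]
    exact div_le_div_of_nonneg_right (by linarith) hF.le
  have hlN : Real.log (TN (av a f)) ≤ Real.log (TN f) := Real.log_le_log hN' hNle
  have hA : 4.85 + 6 * Real.log d ≤ LA d ε f := LA_ge hd hf h0
  have hl : 0 ≤ Real.log d := Real.log_nonneg hd1
  have hφ : 9600 * LA d ε f * (d * Iw f a / TI f) ≤ Iw f a ^ 3 / TF f := by
    rw [le_div_iff₀ hF]
    have e : 9600 * LA d ε f * (d * Iw f a / TI f) * TF f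
        = (9600 * d * LA d ε f * TF f) * (Iw f a / TI f) := by
      field_simp
    rw [e]
    calc (9600 * d * LA d ε f * TF f) * (Iw f a / TI f)
        ≤ (Iw f a ^ 2 * TI f) * (Iw f a / TI f) :=
          mul_le_mul_of_nonneg_right hh (by positivity)
      _ = Iw f a ^ 3 := by
          field_simp
  refine hot_real (x := d * Iw f a / TI f) (φ := Iw f a ^ 3 / TF f) (by positivity) ?_
    (by linarith) (four_LB_le hd hf h0) (one_le_LB hI') ?_ ?_ ?_ hφ ih
  · rw [div_le_iff₀ h0]; linarith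
  · unfold LA
    rw [Real.log_div hD.ne' hI'.ne', Real.log_div hD.ne' h0.ne']
    linarith
  · unfold LB
    rw [Real.log_div hN'.ne' hI'.ne', Real.log_div hN.ne' h0.ne']
    linarith
  · unfold LZ
    linarith

end Pool.Agent.LQ
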