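import Mathlib
import Pool.Agent.LQ.ExpM

/-! LQ, module Kbar: the static bound for `∑_w P_w^3 ∑_a b_aw^2` in the flat case. -/

set_option linter.dupNamespace false

namespace Pool.Agent.LQ

open Finset Pool.Agent.Helper11.Cube Pool.Agent.Helper11.AA Pool.Agent.SUB Pool.Agent.QAA
  Pool.Agent.AA2

variable {n d : ℕ} {ε : ℝ} {f : Cube n → ℝ}

lemma sum_BA (f : Cube n → ℝ) : ∑ a, BA f a = ∑ w, Iw f w ^ 3 * ∑ a, bw f w a ^ 2 := by
  unfold BA
  rw [Finset.sum_comm]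
  exact Finset.sum_congr rfl (fun w _ => (Finset.mul_sum _ _ _).symm)

/-- Assembly, all parameters free: `Λ F` bounds the exponential moment. -/
lemma kbar_assemble (hd : 1 ≤ d) (hf : Bde d ε f) (h0 : 0 < TI f) {β η M L : ℝ}
    (hβ : 0 < β) (hβ1 : β ≤ 1) (hη : 0 < η) (hM : 0 < M) (hM' : ∀ w, Iw f w ≤ M)
    (hL : 1 ≤ L)
    (h1 : M ^ 2 * β * (8 * (d : ℝ) ^ 4 * ε) ≤ TF f)
    (h2 : 4 * d * (η * M) ^ 2 * TI f ≤ TF f)
    (h3 : 100 * (d : ℝ) ^ 4 * ε * M ^ 2 / (η * β ^ 4) ≤ Real.exp L * TF f) :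
    ∑ a, BA f a ≤ (4 * L + 2) * TF f := by
  have hε := eps_pos hf h0
  have hd0 : (0 : ℝ) < d := by exact_mod_cast hd
  have hsplit : ∀ w, ∑ a, bw f w a ^ 2 =
      ∑ a ∈ univ.filter (fun a => |bw f w a| < β), bw f w a ^ 2 +
      ∑ a ∈ Cb β f w, bw f w a ^ 2 := by
    intro w
    unfold Cb
    rw [← Finset.sum_filter_add_sum_filter_not univ (fun a => |bw f w a| < β)
      (fun a => bw f w a ^ 2)]
    congr 1
    apply Finset.sum_congr _ (fun _ _ => rfl)
    ext a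
    simp
  have hA := small_bias hf hε.le hβ hM.le hM'
  -- the main part
  have hB : ∑ w ∈ univ.filter (fun w => η * M ≤ Iw f w),
      Iw f w ^ 3 * ∑ a ∈ Cb β f w, bw f w a ^ 2 ≤ 4 * L * TF f := by
    have e1 : ∀ w ∈ univ.filter (fun w => η * M ≤ Iw f w),
        Iw f w ^ 3 * ∑ a ∈ Cb β f w, bw f w a ^ 2 ≤
        4 * (L - 1) * Iw f w ^ 3 + 4 * Real.exp (-L) *
          (Iw f w ^ 3 * Real.exp ((∑ a ∈ Cb β f w, bw f w a ^ 2) / 4)) := by
      intro w _
      set k := ∑ a ∈ Cb β f w, bw f w a ^ 2 with hk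
      have hP : 0 ≤ Iw f w ^ 3 := pow_nonneg (Iw_nonneg f w) 3
      have e2 : k ≤ 4 * (L - 1) + 4 * Real.exp (-L) * Real.exp (k / 4) := by
        have := Real.add_one_le_exp (-L + k / 4)
        rw [Real.exp_add] at this
        linarith
      calc Iw f w ^ 3 * k ≤ Iw f w ^ 3 * (4 * (L - 1) + 4 * Real.exp (-L) * Real.exp (k / 4)) :=
            mul_le_mul_of_nonneg_left e2 hP
        _ = _ := by ring
    refine (Finset.sum_le_sum e1).trans ?_
    rw [Finset.sum_add_distrib, ← Finset.mul_sum, ← Finset.mul_sum]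
    have e3 := (exp_moment hd hf hε hβ hβ1 hη hM hM').trans h3
    have e4 : ∑ w ∈ univ.filter (fun w => η * M ≤ Iw f w), Iw f w ^ 3 ≤ TF f :=
      Finset.sum_le_sum_of_subset_of_nonneg (Finset.filter_subset _ _)
        (fun w _ _ => pow_nonneg (Iw_nonneg f w) 3)
    have e5 : 4 * (L - 1) * ∑ w ∈ univ.filter (fun w => η * M ≤ Iw f w), Iw f w ^ 3
        ≤ 4 * (L - 1) * TF f := mul_le_mul_of_nonneg_left e4 (by linarith)
    have e6 : 4 * Real.exp (-L) * ∑ w ∈ univ.filter (fun w => η * M ≤ Iw f w),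
        (Iw f w ^ 3 * Real.exp ((∑ a ∈ Cb β f w, bw f w a ^ 2) / 4)) ≤
        4 * Real.exp (-L) * (Real.exp L * TF f) :=
      mul_le_mul_of_nonneg_left e3 (by positivity)
    have e7 : 4 * Real.exp (-L) * (Real.exp L * TF f) = 4 * TF f := by
      rw [Real.exp_neg]; field_simp
    linarith
  -- the coordinates with small influence
  have hC : ∑ w ∈ univ.filter (fun w => ¬ η * M ≤ Iw f w),
      Iw f w ^ 3 * ∑ a ∈ Cb β f w, bw f w a ^ 2 ≤ TF f := by
    have e1 : ∀ w ∈ univ.filter (fun w => ¬ η * M ≤ Iw f w),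
        Iw f w ^ 3 * ∑ a ∈ Cb β f w, bw f w a ^ 2 ≤ 4 * d * (η * M) ^ 2 * Iw f w := by
      intro w hw
      have hw' : Iw f w < η * M := by
        have := (Finset.mem_filter.1 hw).2
        linarith
      have hI := Iw_nonneg f w
      have e2 : ∑ a ∈ Cb β f w, bw f w a ^ 2 ≤ 4 * d :=
        (Finset.sum_le_sum_of_subset_of_nonneg (Finset.subset_univ _)
          (fun a _ _ => sq_nonneg _)).trans (sum_bw_sq_le hf.1 w)
      have e3 : Iw f w ^ 2 ≤ (η * M) ^ 2 := pow_le_pow_left₀ hI hw'.le 2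
      calc Iw f w ^ 3 * ∑ a ∈ Cb β f w, bw f w a ^ 2
          ≤ Iw f w ^ 3 * (4 * d) := mul_le_mul_of_nonneg_left e2 (pow_nonneg hI 3)
        _ = (Iw f w ^ 2) * (4 * d * Iw f w) := by ring
        _ ≤ (η * M) ^ 2 * (4 * d * Iw f w) := mul_le_mul_of_nonneg_right e3 (by positivity)
        _ = _ := by ring
    refine (Finset.sum_le_sum e1).trans ?_
    rw [← Finset.mul_sum]
    refine le_trans ?_ h2
    apply mul_le_mul_of_nonneg_left _ (by positivity)
    exact Finset.sum_le_sum_of_subset_of_nonneg (Finset.filter_subset _ _)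
      (fun w _ _ => Iw_nonneg f w)
  rw [sum_BA]
  have e8 : ∑ w, Iw f w ^ 3 * ∑ a, bw f w a ^ 2 =
      ∑ w, Iw f w ^ 3 * ∑ a ∈ univ.filter (fun a => |bw f w a| < β), bw f w a ^ 2 +
      ∑ w, Iw f w ^ 3 * ∑ a ∈ Cb β f w, bw f w a ^ 2 := by
    rw [← Finset.sum_add_distrib]
    apply Finset.sum_congr rfl
    intro w _
    rw [hsplit w, mul_add]
  rw [e8, ← Finset.sum_filter_add_sum_filter_not univ (fun w => η * M ≤ Iw f w)
      (fun w => Iw f w ^ 3 * ∑ a ∈ Cb β f w, bw f w a ^ 2)]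
  linarith

/-- The parameters: `Θ = 9600 d A`, `M² = Θ F / I`, `β = I / (8 d⁴ Θ ε)`, `η = 1 / (2 d Θ)`,
`L = log (2^100 d^27 A^6 (ε/I)^5) = 5A + 60 log 2 - 13 log d + 6 log A`. -/
theorem kbar (hd : 1 ≤ d) (hf : Bde d ε f) (h0 : 0 < TI f)
    (hflat : ∀ w, Iw f w ^ 2 * TI f ≤ 9600 * d * LA d ε f * TF f) :
    ∑ a, BA f a ≤ (1200 * LA d ε f / 18 - 4 / 3) * TF f := by
  have hε := eps_pos hf h0
  have hF := TF_pos h0
  have hA := LA_ge hd hf h0
  have hI2 := TI_le hf h0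
  have hd1 : (1 : ℝ) ≤ d := by exact_mod_cast hd
  have hd0 : (0 : ℝ) < d := by linarith
  have hlogd : 0 ≤ Real.log d := Real.log_nonneg hd1
  have hLA : LA d ε f = 8 * Real.log 2 + 8 * Real.log d + Real.log (ε / TI f) := by
    unfold LA
    rw [mul_div_assoc, Real.log_mul (by positivity) (by positivity), Real.log_pow,
      Real.log_mul (by norm_num) hd0.ne']
    push_cast
    ring
  set A := LA d ε f with hAdef
  have hA1 : 4.85 ≤ A := by linarith
  have hApos : 0 < A := by linarith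
  set I := TI f with hI
  set F := TF f with hFdef
  set Θ : ℝ := 9600 * d * A with hΘ
  have hΘpos : 0 < Θ := by positivity
  have hΘ1 : 1 ≤ Θ := by
    rw [hΘ]; nlinarith
  have hΘF : 0 < Θ * F / I := by positivity
  set M := Real.sqrt (Θ * F / I) with hM
  have hMpos : 0 < M := Real.sqrt_pos.2 hΘF
  have hMsq : M ^ 2 = Θ * F / I := Real.sq_sqrt hΘF.le
  have hM' : ∀ w, Iw f w ≤ M := by
    intro w
    apply Real.le_sqrt_of_sq_le
    rw [le_div_iff₀ h0]
    exact hflat w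
  set β : ℝ := I / (8 * (d : ℝ) ^ 4 * Θ * ε) with hβ
  have hβpos : 0 < β := by positivity
  have hβ1 : β ≤ 1 := by
    rw [hβ, div_le_one (by positivity)]
    have e1 : (d : ℝ) ^ 2 ≤ (d : ℝ) ^ 4 := pow_le_pow_right₀ hd1 (by norm_num)
    have e2 : 2 * (d : ℝ) ^ 2 * ε ≤ 8 * (d : ℝ) ^ 4 * ε := by nlinarith
    have e3 : 8 * (d : ℝ) ^ 4 * ε ≤ 8 * (d : ℝ) ^ 4 * Θ * ε := by
      have : 0 < 8 * (d : ℝ) ^ 4 * ε := by positivity
      nlinarith
    linarith
  set η : ℝ := 1 / (2 * d * Θ) with hη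
  have hηpos : 0 < η := by positivity
  set X : ℝ := 2 ^ 100 * (d : ℝ) ^ 27 * A ^ 6 * (ε / I) ^ 5 with hX
  have hXpos : 0 < X := by positivity
  set L := Real.log X with hL
  have hLeq : L = 5 * A + 60 * Real.log 2 - 13 * Real.log d + 6 * Real.log A := by
    rw [hL, hX, Real.log_mul (by positivity) (by positivity), Real.log_mul (by positivity)
      (by positivity), Real.log_mul (by positivity) (by positivity), Real.log_pow, Real.log_pow,
      Real.log_pow, Real.log_pow]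
    have : Real.log (ε / I) = A - 8 * Real.log 2 - 8 * Real.log d := by rw [hLA]; ring
    rw [this]
    push_cast
    ring
  have hlog2 := Real.log_two_lt_d9
  have hlog2' := Real.log_two_gt_d9
  have hlogA : 0 ≤ Real.log A := Real.log_nonneg (by linarith)
  have hlogA2 : Real.log A ≤ A / 2 - 1 + Real.log 2 := by
    have h := Real.log_le_sub_one_of_pos (show 0 < A / 2 by positivity)
    rw [Real.log_div hApos.ne' (by norm_num)] at h
    linarith
  have hL1 : 1 ≤ L := by rw [hLeq]; linarith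
  have hL2 : 4 * L + 2 ≤ 1200 * A / 18 - 4 / 3 := by
    rw [hLeq]; linarith
  have h1 : M ^ 2 * β * (8 * (d : ℝ) ^ 4 * ε) ≤ F := by
    rw [hMsq, hβ]
    apply le_of_eq
    field_simp
  have h2 : 4 * d * (η * M) ^ 2 * I ≤ F := by
    rw [mul_pow, hMsq, hη]
    have e : 4 * d * ((1 / (2 * d * Θ)) ^ 2 * (Θ * F / I)) * I = F / (d * Θ) := by
      field_simp
      ring
    rw [e]
    apply div_le_self hF.le
    nlinarith
  have h3 : 100 * (d : ℝ) ^ 4 * ε * M ^ 2 / (η * β ^ 4) ≤ Real.exp L * F := by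
    rw [hL, Real.exp_log hXpos, hMsq]
    have e : 100 * (d : ℝ) ^ 4 * ε * (Θ * F / I) / (η * β ^ 4) =
        819200 * (d : ℝ) ^ 21 * Θ ^ 6 * (ε / I) ^ 5 * F := by
      rw [hη, hβ]
      field_simp
      ring
    rw [e, hΘ, hX]
    apply mul_le_mul_of_nonneg_right _ hF.le
    apply mul_le_mul_of_nonneg_right _ (by positivity)
    have e2 : 819200 * (d : ℝ) ^ 21 * (9600 * d * A) ^ 6
        = (819200 * 9600 ^ 6) * ((d : ℝ) ^ 27 * A ^ 6) := by ring
    have e3 : (2 : ℝ) ^ 100 * (d : ℝ) ^ 27 * A ^ 6 = 2 ^ 100 * ((d : ℝ) ^ 27 * A ^ 6) := by ring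
    rw [e2, e3]
    apply mul_le_mul_of_nonneg_right _ (by positivity)
    norm_num
  have hk := kbar_assemble hd hf h0 hβpos hβ1 hηpos hMpos hM' hL1 h1 h2 h3
  refine hk.trans ?_
  exact mul_le_mul_of_nonneg_right hL2 hF.le

end Pool.Agent.LQ
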