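import Mathlib
import Pool.Agent.LQ.Cold
import Pool.Agent.LQ.Hot
import Pool.Agent.LQ.Flat
import Pool.Agent.LQ.Kbar

/-! LQ, module Ind: the induction. -/

set_option linter.dupNamespace false

namespace Pool.Agent.LQ

open Finset Pool.Agent.Helper11.Cube Pool.Agent.Helper11.AA Pool.Agent.SUB Pool.Agent.QAA
  Pool.Agent.AA2

variable {n d : ℕ} {ε : ℝ} {f : Cube n → ℝ}

/-- Sum of the flat steps over all `a`. -/
lemma flat_sum (hd : 1 ≤ d) (hf : Bde d ε f) (h0 : 0 < TI f) (hN : 3 / 2 * TI f ≤ TN f)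
    (hs : ∀ a, 2 * d * Iw f a ≤ TI f)
    (hflat : ∀ w, Iw f w ^ 2 * TI f ≤ 9600 * d * LA d ε f * TF f) {c : ℝ}
    (ih : ∀ a, Iw f a ≠ 0 → ∀ u : ℤˣ, 0 < TI (rs a u f) →
      LZ (rs a u f) ≤ c + 1200 * (LA d ε (rs a u f) * LB (rs a u f))) :
    LZ f ≤ c + 1200 * (LA d ε f * LB f) := by
  by_contra hcon
  push Not at hcon
  set D := LZ f - c - 1200 * (LA d ε f * LB f) with hD
  have hDpos : 0 < D := by rw [hD]; linarith
  have hFpos := TF_pos h0
  have hNpos : 0 < TN f := lt_of_lt_of_le (by linarith) hN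
  have hApos : 0 < LA d ε f := by
    have h1 := four_LB_le hd hf h0
    have h2 := one_le_LB h0
    linarith
  set E : Fin n → ℝ := fun a => 1200 * LB f * Iw f a
      + 1200 * LA d ε f * (Iw f a - nA f a * TI f / TN f)
      + 2 * Iw f a + (Iw f a - Iw f a ^ 3 * TI f / TF f + 3 * BA f a * TI f / TF f) / 2 with hE
  have hd1 : (1 : ℝ) ≤ d := by exact_mod_cast hd
  have hterm : ∀ a, Iw f a * D ≤ E a := by
    intro a
    have hIa := Iw_nonneg f a
    by_cases ha : Iw f a = 0
    · have h1 := BA_eq_zero f ha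
      have h2 := nA_eq_zero f ha
      simp only [hE]
      rw [h1, h2, ha]
      simp
    · have h1 := flat hd hf h0 a (c := c) (ih a ha)
      rw [← hD] at h1
      have h2 : Iw f a * D ≤ (TI f - Iw f a) * D := by
        apply mul_le_mul_of_nonneg_right _ hDpos.le
        have := hs a
        nlinarith
      exact h2.trans h1
  have hsum : TI f * D ≤ ∑ a, E a := by
    have : TI f * D = ∑ a, Iw f a * D := by
      unfold TI; rw [Finset.sum_mul]
    rw [this]
    exact Finset.sum_le_sum (fun a _ => hterm a)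
  have hEsum : ∑ a, E a = 1200 * LB f * TI f
      + 1200 * LA d ε f * (TI f - (2 * TN f - TI f) * TI f / TN f)
      + 2 * TI f + (TI f - TF f * TI f / TF f + 3 * (∑ a, BA f a) * TI f / TF f) / 2 := by
    simp only [hE]
    rw [Finset.sum_add_distrib, Finset.sum_add_distrib, Finset.sum_add_distrib]
    rw [← Finset.mul_sum, ← Finset.mul_sum, ← Finset.mul_sum, ← Finset.sum_div]
    rw [Finset.sum_sub_distrib, Finset.sum_add_distrib, Finset.sum_sub_distrib]
    rw [← Finset.sum_div, ← Finset.sum_mul, sum_nA, ← Finset.sum_div, ← Finset.sum_mul,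
      ← Finset.sum_div, ← Finset.sum_mul, ← Finset.mul_sum]
    rfl
  have hk := kbar hd hf h0 hflat
  have hAB := four_LB_le hd hf h0
  have h1 : TF f * TI f / TF f = TI f := by field_simp
  have h2 : 3 * (∑ a, BA f a) * TI f / TF f ≤
      3 * (1200 * LA d ε f / 18 - 4 / 3) * TI f := by
    rw [div_le_iff₀ hFpos]
    have : (∑ a, BA f a) * TI f ≤ (1200 * LA d ε f / 18 - 4 / 3) * TF f * TI f :=
      mul_le_mul_of_nonneg_right hk h0.le
    nlinarith
  have h3 : TI f - (2 * TN f - TI f) * TI f / TN f ≤ -(1 / 3) * TI f := by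
    have e : TI f - (2 * TN f - TI f) * TI f / TN f = TI f * (TI f / TN f) - TI f := by
      field_simp
      ring
    have e2 : TI f / TN f ≤ 2 / 3 := by
      rw [div_le_iff₀ hNpos]; linarith
    rw [e]
    nlinarith
  have h4 : 1200 * LB f * TI f ≤ 300 * LA d ε f * TI f := by
    apply mul_le_mul_of_nonneg_right _ h0.le
    linarith
  have h5 : 1200 * LA d ε f * (TI f - (2 * TN f - TI f) * TI f / TN f) ≤
      1200 * LA d ε f * (-(1 / 3) * TI f) :=
    mul_le_mul_of_nonneg_left h3 (by positivity)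
  have h6 : 0 < TI f * D := mul_pos h0 hDpos
  have h7 : ∑ a, E a ≤ 0 := by
    rw [hEsum, h1]
    nlinarith
  linarith

theorem main_bound (hd : 1 ≤ d) (hf : Bde d ε f) (h0 : 0 < TI f) :
    LZ f ≤ 2 * Real.log (8 * (d : ℝ) ^ 2) + 1200 * (LA d ε f * LB f) := by
  obtain ⟨m, hm⟩ : ∃ m, (Rel f).card = m := ⟨_, rfl⟩
  induction m using Nat.strong_induction_on generalizing f with
  | _ m IH =>
    have hApos : 0 < LA d ε f := by
      have h1 := four_LB_le hd hf h0
      have h2 := one_le_LB h0
      linarith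
    have hBpos : 0 < LB f := by linarith [one_le_LB h0]
    have hAB : 0 ≤ 1200 * (LA d ε f * LB f) := by positivity
    by_cases hN : TN f < 3 / 2 * TI f
    · have := cold hd hf.1 h0 hN
      linarith
    push Not at hN
    by_cases hs : ∃ a, TI f < 2 * d * Iw f a
    · obtain ⟨a, ha⟩ := hs
      have := big hd hf.1 h0 ha
      linarith
    push Not at hs
    by_cases hh : ∃ a, 9600 * d * LA d ε f * TF f ≤ Iw f a ^ 2 * TI f
    · obtain ⟨a, ha⟩ := hh
      have hFpos := TF_pos h0
      have hd0 : (0 : ℝ) < d := by exact_mod_cast hd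
      have hIa : Iw f a ≠ 0 := by
        intro h
        rw [h] at ha
        have : 0 < 9600 * d * LA d ε f * TF f := by positivity
        nlinarith
      have hIa' : 0 < Iw f a := lt_of_le_of_ne (Iw_nonneg f a) (Ne.symm hIa)
      have hpos := TI_av_pos hf.1 h0 (hs a)
      have hav := Bde_av hf a
      have hcard := Rel_av f hIa
      rw [hm] at hcard
      have := IH _ hcard hav hpos rfl
      exact hot hd hf h0 hIa' (hs a) ha this
    · push Not at hh
      have hε : 0 ≤ ε := (eps_pos hf h0).le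
      refine flat_sum hd hf h0 hN hs (fun w => (hh w).le) ?_
      intro a ha u hpos
      have hcard := Rel_rs f ha u
      rw [hm] at hcard
      exact IH _ hcard (Bde_rs hf hε a u) hpos rfl

end Pool.Agent.LQ
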