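import Mathlib
import Pool.Agent.LQ.Ind

/-! LQ, module Fin: the bound for `maxDerivNorm`. -/

set_option linter.dupNamespace false

namespace Pool.Agent.LQ

open Finset Pool.Agent.Helper11.Cube Pool.Agent.Helper11.AA Pool.Agent.SUB Pool.Agent.QAA
  Pool.Agent.AA2

variable {n d : ℕ} {ε : ℝ} {f : Cube n → ℝ}

lemma maxDerivNorm_pos (h0 : 0 < TI f) : 0 < maxDerivNorm f := by
  rcases (maxDerivNorm_nonneg f).lt_or_eq with h | h
  · exact h
  · exfalso
    have : TI f ≤ 0 := by
      unfold TI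
      apply Finset.sum_nonpos
      intro w _
      have := Iw_le_max f w
      rw [← h] at this
      simpa using this
    linarith

/-- `M(f) ≥ I / (8d²) exp (-600 (1 + log J) A)` if `N ≤ J I`. -/
theorem fin_TI (hd : 1 ≤ d) (hf : Bde d ε f) (h0 : 0 < TI f) {J : ℝ} (hJ : TN f ≤ J * TI f) :
    TI f ≤ 8 * (d : ℝ) ^ 2 * maxDerivNorm f *
      Real.exp (600 * (1 + Real.log J) * LA d ε f) := by
  have hMpos := maxDerivNorm_pos h0
  have hFpos := TF_pos h0
  have hd0 : (0 : ℝ) < d := by exact_mod_cast hd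
  have hmain := main_bound hd hf h0
  have hApos : 0 < LA d ε f := by
    have h1 := four_LB_le hd hf h0
    have h2 := one_le_LB h0
    linarith
  have hB : LB f ≤ 1 + Real.log J := by
    unfold LB
    have h1 : 0 < TN f := lt_of_lt_of_le h0 (TI_le_TN f)
    have h2 : TN f / TI f ≤ J := by rwa [div_le_iff₀ h0]
    have h3 := Real.log_le_log (div_pos h1 h0) h2
    linarith
  have hF : TF f ≤ maxDerivNorm f ^ 4 * TI f := by
    unfold TF TI
    rw [Finset.mul_sum]
    apply Finset.sum_le_sum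
    intro w _
    have h1 := Iw_le_max f w
    have h2 := Iw_nonneg f w
    have h3 : Iw f w ^ 2 ≤ (maxDerivNorm f ^ 2) ^ 2 := pow_le_pow_left₀ h2 h1 2
    calc Iw f w ^ 3 = Iw f w ^ 2 * Iw f w := by ring
      _ ≤ (maxDerivNorm f ^ 2) ^ 2 * Iw f w := mul_le_mul_of_nonneg_right h3 h2
      _ = maxDerivNorm f ^ 4 * Iw f w := by ring
  have hlogF : Real.log (TF f) ≤ 4 * Real.log (maxDerivNorm f) + Real.log (TI f) := by
    have h1 := Real.log_le_log hFpos hF
    rw [Real.log_mul (by positivity) h0.ne', Real.log_pow] at h1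
    push_cast at h1
    exact h1
  have hZ : 2 * Real.log (TI f) - 2 * Real.log (maxDerivNorm f) ≤ LZ f := by
    unfold LZ
    linarith
  have hAB : LA d ε f * LB f ≤ LA d ε f * (1 + Real.log J) :=
    mul_le_mul_of_nonneg_left hB hApos.le
  have hlog : Real.log (TI f) ≤ Real.log (8 * (d : ℝ) ^ 2) + Real.log (maxDerivNorm f)
      + 600 * (1 + Real.log J) * LA d ε f := by
    nlinarith
  have h8 : (0 : ℝ) < 8 * (d : ℝ) ^ 2 := by positivity
  rw [← Real.log_le_log_iff h0 (by positivity), Real.log_mul (by positivity) (by positivity),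
    Real.log_mul h8.ne' hMpos.ne', Real.log_exp]
  exact hlog

/-- The same with any `0 < V ≤ TI f` in place of `TI f`. -/
theorem fin_V (hd : 1 ≤ d) (hf : Bde d ε f) {J : ℝ} (hJ1 : 1 ≤ J) (hJ : TN f ≤ J * TI f)
    {V : ℝ} (hV : 0 < V) (hV' : V ≤ TI f) :
    V ≤ 8 * (d : ℝ) ^ 2 * maxDerivNorm f *
      Real.exp (600 * (1 + Real.log J) * Real.log ((2 * (d : ℝ)) ^ 8 * ε / V)) := by
  have h0 : 0 < TI f := lt_of_lt_of_le hV hV'
  have hMpos := maxDerivNorm_pos h0
  have hε := eps_pos hf h0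
  have hd1 : (1 : ℝ) ≤ d := by exact_mod_cast hd
  have hd0 : (0 : ℝ) < d := by linarith
  have hlogJ : 0 ≤ Real.log J := Real.log_nonneg hJ1
  have h1 := fin_TI hd hf h0 hJ
  refine hV'.trans (h1.trans ?_)
  apply mul_le_mul_of_nonneg_left _ (by positivity)
  apply Real.exp_le_exp.2
  apply mul_le_mul_of_nonneg_left _ (by positivity)
  unfold LA
  apply Real.log_le_log (by positivity)
  gcongr

end Pool.Agent.LQ
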